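import Pool.Agent.Lib.MP_776403_ag.SD.Z.Spec
import Pool.Agent.Lib.MP_776403_ag.SD.HE.Main

/-!
# THEOREM R (the form for the question of the problem) and the output of part W
-/

set_option autoImplicit false

open MvPolynomial

noncomputable section

namespace Pool.Agent.Lib.MP_776403_ag.SD

/-- `deg N_X|_l = a`, `l = span (x, v)`. -/
def DegEq {N : ℕ} (I : Ideal (Sx N)) (c a : ℕ) (x v : Vx N) : Prop :=
  ∀ᶠ m : ℕ in Filter.atTop,
    Module.finrank ℂ (Lam I (lineI x v) 1 m) + a = c * (m + 1)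

/-- (WOut) THEOREM W: the Chern roots of the conormal bundle are positive integers, if there is a
cone `P` of lines through a point `x`, of dimension `≥ a + c + 2`, all with the normal degree `a`. -/
def S_WOut : Prop :=
  ∀ (N c a : ℕ) (I : Ideal (Sx N)), 1 ≤ c → I.IsPrime → IsHom I → Smooth I c →
    ∀ (x : Vx N) (P : Ideal (Sx N)), x ≠ 0 → P.IsPrime → IsHom P → I ≤ P →
    DimGe P (a + c + 2) → (∀ z ∈ zer P, ∀ s : ℂ, z + s • x ∈ zer P) →
    (∀ z ∈ zer P, ∀ s t : ℂ, s • x + t • z ∈ zer I) →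
    (∀ z ∈ zer P, LinearIndependent ℂ ![x, z] → DegEq I c a x z) →
    ∀ q : ℕ → Polynomial ℤ, SDV.Dat c (N + 1 - 2 * c) q →
    QP N c (fun k => Module.finrank ℂ (gr I k)) (q 0) →
    (∀ j, j ≤ c → ∃ p, QP N c (hV I (VL I j)) p ∧ q j = Polynomial.X ^ j * p) →
    ∀ y : Fin c → ℂ, (∀ j, (PowerSeries.X : PowerSeries ℂ) ^ (N + 1 - 2 * c) ∣
      SDV.tau (q j) - SDV.esx y j * SDV.tau (q 0)) →
    ∃ d : Fin c → ℕ, (∀ i, 1 ≤ d i) ∧ (∀ i, y i = d i) ∧ ∑ i, d i = a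

/-- `∑_{i ≤ s} h_i binom (n + k - i) n`. -/
def hsum (n s : ℕ) (h : ℕ → ℕ) (k : ℕ) : ℕ :=
  ∑ i ∈ Finset.range (s + 1), h i * (if i ≤ k then Nat.choose (n + (k - i)) n else 0)

/-- THEOREM R.  `X ⊆ ℙ^N` smooth, nondegenerate, of dimension `n` and codimension `c`, with Hilbert
polynomial `∑ h_i binom (n + k - i) n`, `h^0(O_X(k)) ≤ ∑ h_i binom (n + k - i) n` for all `k ≥ 0`
(`⊕ H^0(O_X(k))` Cohen-Macaulay), `deg N_X|_l = a` for every line in `X`, covered by lines.  Then `X`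
is a complete intersection if `N ≥ 2 a + c + 1` (and `N ≥ 3 c + s`; in geometry `s = a - c`). -/
def S_R : Prop :=
  ∀ (N n c s a : ℕ) (I : Ideal (Sx N)) (h : ℕ → ℕ), N = n + c → 1 ≤ c → I.IsPrime → IsHom I →
    (∀ F ∈ I, F.IsHomogeneous 1 → F = 0) → Smooth I c → h 0 = 1 →
    (∀ᶠ k : ℕ in Filter.atTop, Module.finrank ℂ (gr I k) = hsum n s h k) →
    (∀ (k r : ℕ) (f : Fin r → (Vx N → ℂ)), (∀ i, IsReg I k (f i)) → LinearIndependent ℂ f →
      r ≤ hsum n s h k) →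
    (∀ x v : Vx N, IsLine I x v → DegEq I c a x v) → Covered I → 2 * a + c + 1 ≤ N →
    3 * c + s ≤ N →
    ∃ (d : Fin c → ℕ) (G : Fin c → Sx N), (∀ i, 2 ≤ d i ∧ (G i).IsHomogeneous (d i)) ∧
      I = Ideal.span (Set.range G)

/-- Lines from a bound for the Hilbert function (`deg X ≤ n`). -/
def S_CovH : Prop :=
  ∀ (N c D : ℕ) (I : Ideal (Sx N)), D + c ≤ N → I.IsPrime → IsHom I →
    (∀ F ∈ I, F.IsHomogeneous 1 → F = 0) → Smooth I c →
    (∀ m, Module.finrank ℂ (gr I m) ≤ D * Nat.choose (m + (N - c)) (N - c)) → Covered I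

end Pool.Agent.Lib.MP_776403_ag.SD
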