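import Pool.Agent.Lib.MP_776403_ag.SD.Z.Main
import Pool.Agent.Lib.MP_776403_ag.SD.W.Out
import Pool.Agent.Lib.MP_776403_ag.SD.W.B
import Pool.Agent.Lib.MP_776403_ag.SD.W.Cr
import Pool.Agent.Lib.MP_776403_ag.SD.W.Cut
import Pool.Agent.Lib.MP_776403_ag.SD.W.Div
import Pool.Agent.Lib.MP_776403_ag.SD.W.Ex
import Pool.Agent.Lib.MP_776403_ag.SD.W.FE
import Pool.Agent.Lib.MP_776403_ag.SD.W.Fr
import Pool.Agent.Lib.MP_776403_ag.SD.W.Im
import Pool.Agent.Lib.MP_776403_ag.SD.W.KI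
import Pool.Agent.Lib.MP_776403_ag.SD.W.Loc
import Pool.Agent.Lib.MP_776403_ag.SD.W.Psi
import Pool.Agent.Lib.MP_776403_ag.SD.W.QP
import Pool.Agent.Lib.MP_776403_ag.SD.W.Rk
import Pool.Agent.Lib.MP_776403_ag.SD.W.Sum
import Pool.Agent.Lib.MP_776403_ag.SD.W.Tn
import Pool.Agent.Lib.MP_776403_ag.SD.W.Tw
import Pool.Agent.Lib.MP_776403_ag.SD.W.Van
import Pool.Agent.Lib.MP_776403_ag.SD.W.XD
import Pool.Agent.Lib.MP_776403_ag.SD.WG.GCol
import Pool.Agent.Lib.MP_776403_ag.SD.WG.GDb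
import Pool.Agent.Lib.MP_776403_ag.SD.WG.GMod
import Pool.Agent.Lib.MP_776403_ag.SD.WG.GNa
import Pool.Agent.Lib.MP_776403_ag.SD.WG.GQk
import Pool.Agent.Lib.MP_776403_ag.SD.WG.GRk
import Pool.Agent.Lib.MP_776403_ag.SD.WG.GSat
import Pool.Agent.Lib.MP_776403_ag.SD.WG.GTx

/-!
# THEOREM W: assembly
-/

set_option autoImplicit false

namespace Pool.Agent.Lib.MP_776403_ag.SD

theorem zWLoc : S_WLoc := wLoc tKNoe tD6p wB

theorem zWKI : S_WKI := wKI (wTw wB) zKHV zKI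

theorem zWCr : S_WCr := wCr tMinor tNull

theorem zWFr : S_WFr := wFr zWCr tNull wB

theorem zWEx : S_WEx := wEx wIm zWFr wTn zWLoc wB

theorem zWSum : S_WSum := wSum zWEx wB

theorem zWXD : S_WXD := wXD eCN wB

theorem zWPsi : S_WPsi := wPsi tNull wB

theorem zWVan : S_WVan := wVan tNull eCN wB

theorem zWQP : S_WQP := wQP zKHV tKGV zKPV tD1

theorem zWDiv : S_WDiv := wDiv zWKI kSGr

theorem zWRk : S_WRk := wRk zWCr wB tNull

theorem zWCut : S_WCut := wCut tNull tTB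

theorem zWFE (hR1 : S_WR1) (hR2 : S_WR2) : S_WFE :=
  wFE hR1 hR2 zWVan zWQP zWDiv zWKI zKLF tKGV wB tNull zWRk kSGr

theorem zWOut (hGeo : S_WGeo) (hR1 : S_WR1) (hR2 : S_WR2) : S_WOut :=
  wOut hGeo zWCut (zWFE hR1 hR2) zWQP

/-! ## The geometric part -/

theorem zGDb : S_GDb := tGDb mHom tGTx

theorem zGQk : S_GQk := tGQk mHom tGTx tGMod zGDb

theorem zGNa : S_GNa := tGNa tNull mCr tGTx zGDb zGQk

theorem zGSat : S_GSat := tGSat mHom eLinB mLoc mCr mCrL zGDb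

theorem zGRk : S_GRk := tGRk zGQk zGSat tGCol

end Pool.Agent.Lib.MP_776403_ag.SD
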