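import Pool.Agent.Lib.MP_776403_ag.SD.Z.RL

/-!
# THEOREM Q: the final form for Q1
-/

set_option autoImplicit false

noncomputable section

namespace Pool.Agent.Lib.MP_776403_ag.SD

/-- THEOREM Q. -/
def S_Q : Prop :=
  ∀ (N n c s : ℕ) (I : Ideal (Sx N)) (h : ℕ → ℕ), N = n + c → 1 ≤ c → I.IsPrime → IsHom I →
    (∀ F ∈ I, F.IsHomogeneous 1 → F = 0) → Smooth I c → h 0 = 1 →
    (∀ᶠ k : ℕ in Filter.atTop, Module.finrank ℂ (gr I k) = hsum n s h k) →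
    (∀ (k r : ℕ) (f : Fin r → (Vx N → ℂ)), (∀ i, IsReg I k (f i)) → LinearIndependent ℂ f →
      r ≤ hsum n s h k) →
    ((∃ a : ℕ, 2 * a + c + 1 ≤ N ∧ 3 * c + s ≤ N ∧
        (∀ x v : Vx N, IsLine I x v → DegEq I c a x v) ∧
        (Covered I ∨ ∑ i ∈ Finset.range (s + 1), h i ≤ n)) ∨
      (3 * c + 2 * s + 1 ≤ N ∧ ∑ i ∈ Finset.range (s + 1), h i + c ≤ n) ∨
      (3 * c + 2 * s + 1 ≤ N ∧ ∃ e : ℕ, c * (e + 1) + 1 ≤ N ∧
        I ≤ Ideal.span {F | F ∈ I ∧ ∃ k ≤ e, F.IsHomogeneous k})) →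
    ∃ (d : Fin c → ℕ) (G : Fin c → Sx N), (∀ i, 2 ≤ d i ∧ (G i).IsHomogeneous (d i)) ∧
      I = Ideal.span (Set.range G)

theorem zQ (hR : S_R) (hRL : S_RL) (hCov : S_CovH) (hLoc : S_GLoc) (hCone : S_GCone)
    (hCn : S_Cn) (hCl : S_CloseD) : S_Q := by
  intro N n c s I h hN hc hI hIh hnd hS h0 hHP hReg hcase
  have hne : ∃ y ∈ zer I, y ≠ 0 := by
    by_contra hcon
    push Not at hcon
    have h1 : (MvPolynomial.X 0 : Sx N) ∈ I := by
      refine (tNull N I hI hIh).1 (MvPolynomial.X 0) (fun z hz => ?_)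
      rw [hcon z hz]
      simp
    have h2 := hnd _ h1 (MvPolynomial.isHomogeneous_X ℂ 0)
    exact MvPolynomial.X_ne_zero (R := ℂ) (0 : Fin (N + 1)) h2
  rcases hcase with ⟨a, ha, hs, hdeg, hcov⟩ | ⟨hr, hD⟩ | ⟨hr, e, he, hgen⟩
  · refine hR N n c s a I h hN hc hI hIh hnd hS h0 hHP hReg hdeg ?_ ha hs
    rcases hcov with hcov | hD
    · exact hcov
    · exact hCov N c _ I (by omega) hI hIh hnd hS (gr_le N n c s I h hN hI hIh hne hReg)
  · exact hRL N n c s I h hN hc hI hIh hnd hS h0 hHP hReg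
      (cones_deg hCn hCl N n c s I h hN hI hIh hS hne hReg hD) hr
  · exact hRL N n c s I h hN hc hI hIh hnd hS h0 hHP hReg
      (cones_eq hLoc hCone N c e I hI hIh hS hgen he) hr

end Pool.Agent.Lib.MP_776403_ag.SD
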