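import Pool.Agent.Lib.MP_776403_ag.SD.Main2
import Pool.Agent.Lib.MP_776403_ag.SD.Z.MainW
import Pool.Agent.Lib.MP_776403_ag.SD.Z.Q
import Pool.Agent.Lib.MP_776403_ag.SD.L.Cn
import Pool.Agent.Lib.MP_776403_ag.SD.L.CnF
import Pool.Agent.Lib.MP_776403_ag.SD.L.CnL
import Pool.Agent.Lib.MP_776403_ag.SD.R.CDim
import Pool.Agent.Lib.MP_776403_ag.SD.R.CElim
import Pool.Agent.Lib.MP_776403_ag.SD.R.CJn
import Pool.Agent.Lib.MP_776403_ag.SD.R.CLin
import Pool.Agent.Lib.MP_776403_ag.SD.R.CLp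
import Pool.Agent.Lib.MP_776403_ag.SD.R.CUp
import Pool.Agent.Lib.MP_776403_ag.SD.R.CloseD

/-!
# THEOREM Q: assembly
-/

set_option autoImplicit false

namespace Pool.Agent.Lib.MP_776403_ag.SD

theorem zCn : S_Cn :=
  lCn lNoe lRank mDimS (lModel lPrim) (lCnF mKrull tNull mLinS eLinB tTB)
    (lCnL tNull mLinS eLinB tTB) tMono

theorem zCloseD : S_CloseD :=
  closeD (cElim lLinU mLinS tD6p) (cLin (cDim tTB) tD2c) (cUp tNull tTB) (cJn tNull)
    (cLp mKrull tTB) mMeet tNull mLinS eLinB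

theorem zRGfin (hW : S_WOut) : S_RG := zRG zSDatfin hW zNumErr gHci

theorem zRLfin (hW : S_WOut) : S_RL := zRL zSDatfin zNumB zJLBfin (zRGfin hW)

/-- THEOREM Q modulo THEOREM W. -/
theorem zQfin (hW : S_WOut) : S_Q :=
  zQ (zRfin hW) (zRLfin hW) mCovH gLoc (gCone mKrull tNull mLinS eLinB tTB) zCn zCloseD

end Pool.Agent.Lib.MP_776403_ag.SD
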