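import Pool.Agent.Lib.MP_776403_ag.SD.Z.MainW
import Pool.Agent.Lib.MP_776403_ag.SD.W.Geo

/-!
# THEOREM W: the geometric part, closed form
-/

set_option autoImplicit false

namespace Pool.Agent.Lib.MP_776403_ag.SD

theorem zGNb : S_GNb := tGNb eLinB mHom tNull mCr tGTx zGDb

theorem zWGeo : S_WGeo := wGeo1 eLinB mHom tNull mLoc tGTx zGQk zGNa zGNb zGRk

end Pool.Agent.Lib.MP_776403_ag.SD
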