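import Pool.Agent.Lib.MP_776403_ag.SD.Z.MainQ
import Pool.Agent.Lib.MP_776403_ag.SD.Z.MainG
import Pool.Agent.Lib.MP_776403_ag.SD.W.R1
import Pool.Agent.Lib.MP_776403_ag.SD.W.R2

/-!
# THEOREM SD, stage 2: closed forms of all results
-/

set_option autoImplicit false

namespace Pool.Agent.Lib.MP_776403_ag.SD

theorem zWR1 : S_WR1 := wR1 zWSum wB

theorem zWR2 : S_WR2 := wR2 zWXD zWSum zWPsi wB

/-- THEOREM W. -/
theorem wOutfin : S_WOut := zWOut zWGeo zWR1 zWR2

/-- THEOREM H, linear range. -/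
theorem wHW : S_HW := zHWfin wOutfin

/-- THEOREM R. -/
theorem wR : S_R := zRfin wOutfin

theorem wRG : S_RG := zRGfin wOutfin

theorem wRL : S_RL := zRLfin wOutfin

/-- THEOREM Q. -/
theorem wQ : S_Q := zQfin wOutfin

end Pool.Agent.Lib.MP_776403_ag.SD
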