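import Pool.Agent.Lib.MP_776403_ag.SD.Z.RG
import Pool.Agent.Lib.MP_776403_ag.SD.G.GAcm
import Pool.Agent.Lib.MP_776403_ag.SD.R.Spec
import Pool.Agent.Lib.MP_776403_ag.SD.L.SpecC

/-!
# THEOREM R without a hypothesis on the degrees of the lines
-/

set_option autoImplicit false

noncomputable section

namespace Pool.Agent.Lib.MP_776403_ag.SD

open Polynomial

/-- THEOREM R from large cones of lines (LC). -/
def S_RL : Prop :=
  ∀ (N n c s : ℕ) (I : Ideal (Sx N)) (h : ℕ → ℕ), N = n + c → 1 ≤ c → I.IsPrime → IsHom I →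
    (∀ F ∈ I, F.IsHomogeneous 1 → F = 0) → Smooth I c → h 0 = 1 →
    (∀ᶠ k : ℕ in Filter.atTop, Module.finrank ℂ (gr I k) = hsum n s h k) →
    (∀ (k r : ℕ) (f : Fin r → (Vx N → ℂ)), (∀ i, IsReg I k (f i)) → LinearIndependent ℂ f →
      r ≤ hsum n s h k) →
    (∀ y ∈ zer I, y ≠ 0 → ∃ P : Ideal (Sx N), P.IsPrime ∧ IsHom P ∧ DimGe P (c + 2) ∧
      ∀ z ∈ zer P, ∀ s t : ℂ, s • y + t • z ∈ zer I) →
    3 * c + 2 * s + 1 ≤ N →
    ∃ (d : Fin c → ℕ) (G : Fin c → Sx N), (∀ i, 2 ≤ d i ∧ (G i).IsHomogeneous (d i)) ∧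
      I = Ideal.span (Set.range G)

namespace RLAux

open JAsmAux

/-- Every line has a degree. -/
theorem exists_deg {N : ℕ} (c : ℕ) (I : Ideal (Sx N)) (hI : I.IsPrime) (hIh : IsHom I)
    (hS : Smooth I c) (x v : Vx N) (hl : IsLine I x v) : ∃ b : ℕ, DegEq I c b x v := by
  have hx0 : x ≠ 0 := hl.1.ne_zero 0
  have hxI : x ∈ zer I := by
    have := hl.2 1 0
    rwa [one_smul, zero_smul, add_zero] at this
  obtain ⟨L⟩ := eLoc N c I hS x hxI hx0
  obtain ⟨μ, hμ⟩ := ConAux.good' N c I x v L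
  have hl' : IsLine I x (v + μ • x) := by
    refine ⟨?_, fun s t => ?_⟩
    · have hind := hl.1
      rw [LinearIndependent.pair_iff] at hind ⊢
      intro s t hst
      have e : s • x + t • (v + μ • x) = (s + t * μ) • x + t • v := by module
      rw [e] at hst
      obtain ⟨h1, h2⟩ := hind _ _ hst
      refine ⟨?_, h2⟩
      rw [h2, zero_mul, add_zero] at h1
      exact h1
    · have e : s • x + t • (v + μ • x) = (s + t * μ) • x + t • v := by module
      rw [e]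
      exact hl.2 _ _
  have h1 := (jSur (eHom eLinB) (eCrL eLinB) (eLineI eLinB)) N c I hI hIh hS x _ hl' L hμ
  refine ⟨c + Module.finrank ℂ ((Fin c → Polynomial ℂ) ⧸ L.E (v + μ • x)), ?_⟩
  unfold DegEq
  rw [← lineI_add x v μ]
  filter_upwards [h1] with m hm
  have e6 : c * (m + 1) = c * m + c := by ring
  omega

end RLAux

open RAux RLAux

/-- THEOREM R from large cones of lines. -/
theorem zRL (hDat : S_SDat) (hNumB : S_NumB) (hJLB : S_JLB) (hRG : S_RG) : S_RL := by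
  intro N n c s I h hN hc hI hIh hnd hS h0 hHP hReg hLC hrange
  -- `X` is not empty
  have hne : ∃ y ∈ zer I, y ≠ 0 := by
    by_contra hcon
    push Not at hcon
    have h1 : (MvPolynomial.X 0 : Sx N) ∈ I := by
      refine (tNull N I hI hIh).1 (MvPolynomial.X 0) (fun z hz => ?_)
      rw [hcon z hz]
      simp
    have h2 := hnd _ h1 (MvPolynomial.isHomogeneous_X ℂ 0)
    exact MvPolynomial.X_ne_zero (R := ℂ) (0 : Fin (N + 1)) h2
  -- the numerator of the Hilbert series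
  obtain ⟨K, hK⟩ := Filter.eventually_atTop.1 hHP
  set E : ℤ[X] := ∑ k ∈ Finset.range K,
    monomial k ((hsum n s h k : ℤ) - (Module.finrank ℂ (gr I k) : ℤ)) with hE
  set q0 : ℤ[X] := hP s h - (1 - X) ^ (n + 1) * E with hq0d
  have hQP : QP N c (fun k => Module.finrank ℂ (gr I k)) q0 :=
    QP_change hN (QP_hsum hN s h) K hK
  have hq1 : q0.eval 1 = ((∑ i ∈ Finset.range (s + 1), h i : ℕ) : ℤ) := by
    rw [hq0d, eval_sub, eval_mul, eval_pow, eval_sub, eval_one, eval_X, sub_self,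
      zero_pow (by omega), zero_mul, sub_zero, hP_eval]
  have hq1' : 0 < q0.eval 1 := by
    rw [hq1]
    have h1 : h 0 ≤ ∑ i ∈ Finset.range (s + 1), h i :=
      Finset.single_le_sum (f := h) (fun _ _ => Nat.zero_le _) (Finset.mem_range.2 (by omega))
    rw [h0] at h1
    exact_mod_cast h1
  obtain ⟨q, hq0, hDat', hqj⟩ := hDat N c (by omega) I q0 hI hIh hS hne hQP hq1'
  obtain ⟨y, hy⟩ := SDV.pBr c (N + 1 - 2 * c) q (by omega) hDat'
  -- the sum of the Chern roots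
  have hsdeg := hP_deg s h
  set a : ℕ := c + (hP s h).natDegree with ha
  have hsum : ∑ i, y i = (a : ℂ) := by
    have h1 := SDV.pP1 c (N + 1 - 2 * c) q y hDat' hy
    rw [hq0] at h1
    have h2 : (PowerSeries.X : PowerSeries ℂ) ^ (N + 1 - 2 * c) ∣
        SDV.tau ((1 - X) ^ c * hP s h) - SDV.gx y := by
      have h3 : SDV.tau ((1 - X) ^ c * hP s h) - SDV.gx y =
          (SDV.tau ((1 - X) ^ c * q0) - SDV.gx y) + SDV.tau ((1 - X) ^ (c + (n + 1)) * E) := by
        have h4 : (1 - X : ℤ[X]) ^ c * hP s h =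
            (1 - X) ^ c * q0 + (1 - X) ^ (c + (n + 1)) * E := by
          rw [hq0d, pow_add]
          ring
        rw [h4]
        unfold SDV.tau
        rw [map_add]
        ring
      rw [h3]
      refine dvd_add h1 ((SDV.pT1 _ _).1 ?_)
      exact Dvd.dvd.mul_right (pow_dvd_pow _ (by omega)) _
    rw [SDV.tau_ev, SDV.gx_eq] at h2
    refine SDC.Aux.sum_roots c (hP s h).natDegree (N + 1 - 2 * c) (hP s h) y ?_ rfl (by omega) h2
    rw [hP_coeff, if_pos (Nat.zero_le _), h0]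
    exact one_ne_zero
  have hnum : ∀ J : Ideal (Sx N), J.IsPrime → IsHom J → I ≤ J →
      Gw (c - 1) (fun m => (Module.finrank ℂ (Lam I J c m) : ℤ) -
        (Module.finrank ℂ (gr J (m - a)) : ℤ)) :=
    hNumB N c a I hI hIh hS hc (by omega) q (by rw [hq0]; exact hQP)
      (by rw [hq0]; exact ne_of_gt hq1') (hqj c le_rfl) (dvd_det q y hsum (hy c))
  have hcone : ∀ P : Ideal (Sx N), P.IsPrime → IsHom P → DimGe P (c + 2) → ∀ x : Vx N, x ≠ 0 →
      (∀ z ∈ zer P, ∀ s t : ℂ, s • x + t • z ∈ zer I) →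
      ∀ v ∈ zer P, LinearIndependent ℂ ![x, v] → DegEq I c a x v :=
    fun P hP hPh hD x hx0 hpl v hv hli => hJLB N c a I hI hIh hS hc hnum P hP hPh hD x hx0 hpl v hv
      hli
  refine hRG N n c s a I h hN hc hI hIh hnd hS h0 hHP hReg ?_ ?_ (by omega) (by omega)
  · -- every line has degree at least `a`
    intro x v hl
    obtain ⟨b, hb⟩ := exists_deg c I hI hIh hS x v hl
    by_cases hba : b < a
    · exfalso
      obtain ⟨P, hPp, hPh, -, hPD, hvP, -, hpl⟩ := H.mLineE N c b I hI hIh hS x v hl (by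
        unfold H.DegLe
        filter_upwards [hb] with m hm
        omega)
      have h1 := hcone P hPp hPh (tMono _ P _ _ (by omega) hPD) x (hl.1.ne_zero 0) hpl v hvP hl.1
      unfold DegEq at hb h1
      obtain ⟨m, hm1, hm2⟩ := (hb.and h1).exists
      omega
    · filter_upwards [hb] with m hm
      omega
  · intro z hz hz0
    obtain ⟨P, hPp, hPh, hPD, hpl⟩ := hLC z hz hz0
    obtain ⟨v, hv, hli⟩ := GAcmAux.exists_indep tNull P hPp hPh (tMono _ P _ _ (by omega) hPD) z hz0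
    exact ⟨v, ⟨hli, hpl v hv⟩, hcone P hPp hPh hPD z hz0 hpl v hv hli⟩

/-! ## Large cones from equations -/

/-- Large cones of lines through all points, from the degrees of the equations. -/
theorem cones_eq (hLoc : S_GLoc) (hCone : S_GCone) (N c e : ℕ) (I : Ideal (Sx N)) (hI : I.IsPrime)
    (hIh : IsHom I) (hS : Smooth I c)
    (hgen : I ≤ Ideal.span {F | F ∈ I ∧ ∃ k ≤ e, F.IsHomogeneous k})
    (hN : c * (e + 1) + 1 ≤ N) :
    ∀ y ∈ zer I, y ≠ 0 → ∃ P : Ideal (Sx N), P.IsPrime ∧ IsHom P ∧ DimGe P (c + 2) ∧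
      ∀ z ∈ zer P, ∀ s t : ℂ, s • y + t • z ∈ zer I := by
  intro y hy hy0
  obtain ⟨F, f, h, g, h1, h2, h3, h4, h5⟩ := hLoc N c e I hIh hS hgen y hy hy0
  obtain ⟨P, p1, p2, -, p4, -, p6⟩ := hCone N c I hI hIh y hy hy0 F f h
    (fun i => ⟨(h1 i).1, (h1 i).2.1⟩) h3 h5
  refine ⟨P, p1, p2, tMono _ P _ _ ?_ p4, p6⟩
  have hsum : ∑ i, f i ≤ c * e := by
    calc ∑ i, f i ≤ ∑ _i : Fin c, e := Finset.sum_le_sum fun i _ => (h1 i).2.2
      _ = c * e := by
        rw [Finset.sum_const, Finset.card_univ, Fintype.card_fin, smul_eq_mul]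
  have h6 : c * (e + 1) = c * e + c := by ring
  omega

/-! ## Large cones from the degree -/

/-- The Hilbert function is at most `deg X * binom (m + n) n`. -/
theorem hsum_le (n s : ℕ) (h : ℕ → ℕ) (m : ℕ) :
    hsum n s h m ≤ (∑ i ∈ Finset.range (s + 1), h i) * Nat.choose (m + n) n := by
  unfold hsum
  rw [Finset.sum_mul]
  refine Finset.sum_le_sum fun i _ => Nat.mul_le_mul_left _ ?_
  split_ifs with h1
  · exact Nat.choose_le_choose _ (by omega)
  · exact Nat.zero_le _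

theorem gr_le (N n c s : ℕ) (I : Ideal (Sx N)) (h : ℕ → ℕ) (hN : N = n + c) (hI : I.IsPrime)
    (hIh : IsHom I) (hne : ∃ y ∈ zer I, y ≠ 0)
    (hReg : ∀ (k r : ℕ) (f : Fin r → (Vx N → ℂ)), (∀ i, IsReg I k (f i)) →
      LinearIndependent ℂ f → r ≤ hsum n s h k) (m : ℕ) :
    Module.finrank ℂ (gr I m) ≤
      (∑ i ∈ Finset.range (s + 1), h i) * Nat.choose (m + (N - c)) (N - c) := by
  obtain ⟨f, hf1, hf2⟩ := forms_reg I hI hIh hne m
  refine (hReg m _ f hf1 hf2).trans ?_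
  have h1 : N - c = n := by omega
  rw [h1]
  exact hsum_le n s h m

/-- Large cones of lines through all points, from the degree. -/
theorem cones_deg (hCn : S_Cn) (hCl : S_CloseD) (N n c s : ℕ) (I : Ideal (Sx N)) (h : ℕ → ℕ)
    (hN : N = n + c) (hI : I.IsPrime) (hIh : IsHom I) (hS : Smooth I c)
    (hne : ∃ y ∈ zer I, y ≠ 0)
    (hReg : ∀ (k r : ℕ) (f : Fin r → (Vx N → ℂ)), (∀ i, IsReg I k (f i)) →
      LinearIndependent ℂ f → r ≤ hsum n s h k)
    (hD : ∑ i ∈ Finset.range (s + 1), h i + c ≤ n) :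
    ∀ y ∈ zer I, y ≠ 0 → ∃ P : Ideal (Sx N), P.IsPrime ∧ IsHom P ∧ DimGe P (c + 2) ∧
      ∀ z ∈ zer P, ∀ s t : ℂ, s • y + t • z ∈ zer I := by
  obtain ⟨g, hg, hgP⟩ := hCn N c (∑ i ∈ Finset.range (s + 1), h i) I (by omega) hI hIh hS hne
    (gr_le N n c s I h hN hI hIh hne hReg)
  intro y hy hy0
  obtain ⟨P, p1, p2, -, p4, -, p6⟩ := hCl N c I hI hIh g hg (fun x hx hx0 hgx => by
    obtain ⟨P, p1, p2, -, p4, -, p6⟩ := hgP x hx hx0 hgx
    exact ⟨P, p1, p2, tMono _ P _ _ (by omega) p4, p6⟩) y hy hy0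
  exact ⟨P, p1, p2, p4, p6⟩

end Pool.Agent.Lib.MP_776403_ag.SD
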