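import Pool.Agent.Lib.MP_776403_ag.SD.Z.HW
import Pool.Agent.Lib.MP_776403_ag.SD.R.CCst

/-!
# THEOREM R, general form: lines of minimal degree
-/

set_option autoImplicit false

noncomputable section

namespace Pool.Agent.Lib.MP_776403_ag.SD

open Polynomial

/-- THEOREM R, general form: `deg N_X|_l ≥ a` for every line in `X`, with equality for some line
through every point. -/
def S_RG : Prop :=
  ∀ (N n c s a : ℕ) (I : Ideal (Sx N)) (h : ℕ → ℕ), N = n + c → 1 ≤ c → I.IsPrime → IsHom I →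
    (∀ F ∈ I, F.IsHomogeneous 1 → F = 0) → Smooth I c → h 0 = 1 →
    (∀ᶠ k : ℕ in Filter.atTop, Module.finrank ℂ (gr I k) = hsum n s h k) →
    (∀ (k r : ℕ) (f : Fin r → (Vx N → ℂ)), (∀ i, IsReg I k (f i)) → LinearIndependent ℂ f →
      r ≤ hsum n s h k) →
    (∀ x v : Vx N, IsLine I x v → ∀ᶠ m : ℕ in Filter.atTop,
      Module.finrank ℂ (Lam I (lineI x v) 1 m) + a ≤ c * (m + 1)) →
    (∀ y ∈ zer I, y ≠ 0 → ∃ v : Vx N, IsLine I y v ∧ DegEq I c a y v) → 2 * a + c + 1 ≤ N →
    3 * c + s ≤ N →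
    ∃ (d : Fin c → ℕ) (G : Fin c → Sx N), (∀ i, 2 ≤ d i ∧ (G i).IsHomogeneous (d i)) ∧
      I = Ideal.span (Set.range G)

open RAux

/-- THEOREM R, general form, from its parts. -/
theorem zRG (hDat : S_SDat) (hW : S_WOut) (hErr : S_NumErr) (hHci : S_GHci) : S_RG := by
  intro N n c s a I h hN hc hI hIh hnd hS h0 hHP hReg hmin hcov hra hrs
  -- `X` is not empty
  have hne : ∃ y ∈ zer I, y ≠ 0 := by
    by_contra hcon
    push Not at hcon
    have h1 : (MvPolynomial.X 0 : Sx N) ∈ I := by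
      refine (tNull N I hI hIh).1 (MvPolynomial.X 0) (fun z hz => ?_)
      rw [hcon z hz]
      simp
    have h2 := hnd _ h1 (MvPolynomial.isHomogeneous_X ℂ 0)
    exact MvPolynomial.X_ne_zero (R := ℂ) (0 : Fin (N + 1)) h2
  -- the numerator of the Hilbert series
  obtain ⟨K, hK⟩ := Filter.eventually_atTop.1 hHP
  set E : ℤ[X] := ∑ k ∈ Finset.range K,
    monomial k ((hsum n s h k : ℤ) - (Module.finrank ℂ (gr I k) : ℤ)) with hE
  set q0 : ℤ[X] := hP s h - (1 - X) ^ (n + 1) * E with hq0d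
  have hQP : QP N c (fun k => Module.finrank ℂ (gr I k)) q0 :=
    QP_change hN (QP_hsum hN s h) K hK
  have hq1 : q0.eval 1 = ((∑ i ∈ Finset.range (s + 1), h i : ℕ) : ℤ) := by
    rw [hq0d, eval_sub, eval_mul, eval_pow, eval_sub, eval_one, eval_X, sub_self,
      zero_pow (by omega), zero_mul, sub_zero, hP_eval]
  have hq1' : 0 < q0.eval 1 := by
    rw [hq1]
    have h1 : h 0 ≤ ∑ i ∈ Finset.range (s + 1), h i :=
      Finset.single_le_sum (f := h) (fun _ _ => Nat.zero_le _) (Finset.mem_range.2 (by omega))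
    rw [h0] at h1
    exact_mod_cast h1
  obtain ⟨q, hq0, hDat', hqj⟩ := hDat N c (by omega) I q0 hI hIh hS hne hQP hq1'
  obtain ⟨y, hy⟩ := SDV.pBr c (N + 1 - 2 * c) q (by omega) hDat'
  -- the cone of lines
  obtain ⟨x, hx, hx0⟩ := hne
  obtain ⟨v, hxv, hva⟩ := hcov x hx hx0
  obtain ⟨P, hPp, hPh, hIP, hPD, hvP, hst, hpl⟩ := H.mLineE N c a I hI hIh hS x v hxv (by
    unfold H.DegLe
    filter_upwards [hva] with m hm
    omega)
  have hPa : ∀ z ∈ zer P, LinearIndependent ℂ ![x, z] → DegEq I c a x z := fun z hz hli =>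
    cCon N c a I P x hI hIh hS hPp hPh hIP hst hpl v hvP hxv.1 z hz hli hva
  have hPD' : DimGe P (a + c + 2) := tMono _ P _ _ (by omega) hPD
  obtain ⟨d, hd1, hyd, hda⟩ := hW N c a I hc hI hIh hS x P hx0 hPp hPh hIP hPD' hst hpl
    hPa q hDat' (by rw [hq0]; exact hQP) hqj y hy
  have hdiv := ZAux.dvd_of_int q y d hyd hy
  have hac : c ≤ a := by
    calc c = ∑ _i : Fin c, 1 := by simp
      _ ≤ ∑ i, d i := Finset.sum_le_sum fun i _ => hd1 i
      _ = a := hda
  -- the product formula
  have hprod : (1 - X : ℤ[X]) ^ c * hP s h = ∏ i, (1 - X ^ (d i)) := by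
    have h1 := SDV.pP1 c (N + 1 - 2 * c) q y hDat' hy
    rw [← tau_prod y d hyd, hq0] at h1
    have h2 : SDV.tau ((1 - X) ^ c * q0) - SDV.tau (∏ i, (1 - X ^ (d i))) =
        SDV.tau ((1 - X) ^ c * q0 - ∏ i, (1 - X ^ (d i))) := by
      unfold SDV.tau
      rw [map_sub]
    rw [h2, ← SDV.pT1] at h1
    have h3 : (1 - X : ℤ[X]) ^ (N + 1 - 2 * c) ∣
        (1 - X) ^ c * hP s h - ∏ i, (1 - X ^ (d i)) := by
      have h4 : (1 - X : ℤ[X]) ^ c * hP s h - ∏ i, (1 - X ^ (d i)) =
          ((1 - X) ^ c * q0 - ∏ i, (1 - X ^ (d i))) + (1 - X) ^ (c + (n + 1)) * E := by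
        rw [hq0d, pow_add]
        ring
      rw [h4]
      refine dvd_add h1 (Dvd.dvd.mul_right (pow_dvd_pow _ (by omega)) _)
    have h5 := eq_zero_of_dvd h3 ?_
    · exact sub_eq_zero.1 h5
    · have e3 : (1 - X : ℤ[X]).natDegree ≤ 1 := by
        have h1 : (1 - X : ℤ[X]) = -(X - C 1) := by rw [C_1]; ring
        rw [h1, natDegree_neg, natDegree_X_sub_C]
      have e4 : ((1 - X : ℤ[X]) ^ c * hP s h).natDegree ≤ c + s := by
        refine natDegree_mul_le.trans (add_le_add ?_ (hP_deg s h))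
        refine natDegree_pow_le.trans ?_
        calc c * (1 - X : ℤ[X]).natDegree ≤ c * 1 := Nat.mul_le_mul_left c e3
          _ = c := mul_one c
      have e5 : (∏ i, (1 - X ^ (d i)) : ℤ[X]).natDegree ≤ a := by
        rw [← hda]
        refine (natDegree_prod_le _ _).trans (Finset.sum_le_sum fun i _ => ?_)
        refine (natDegree_sub_le _ _).trans ?_
        rw [natDegree_one, natDegree_X_pow]
        exact max_le (Nat.zero_le _) le_rfl
      have e6 := natDegree_sub_le ((1 - X : ℤ[X]) ^ c * hP s h) (∏ i, (1 - X ^ (d i)))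
      have e7 : max ((1 - X : ℤ[X]) ^ c * hP s h).natDegree (∏ i, (1 - X ^ (d i)) : ℤ[X]).natDegree
          ≤ max (c + s) a := max_le_max e4 e5
      have e8 : max (c + s) a < N + 1 - 2 * c := max_lt (by omega) (by omega)
      omega
  -- all degrees are at least two
  have hd2 : ∀ i, 2 ≤ d i := by
    refine two_le' d hd1 (hP s h) (by rw [hP_coeff, if_pos (Nat.zero_le _), h0]; rfl) ?_ hprod
    have h1 : LinearIndependent ℂ (fun i : Fin (N + 1) => HFbAux.fn I (MvPolynomial.X i : Sx N)) := by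
      rw [Fintype.linearIndependent_iff]
      intro b hb i
      have h2 : (∑ j, b j • (MvPolynomial.X j : Sx N)) ∈ I := by
        refine (tNull N I hI hIh).2 ⟨x, hx, hx0⟩ _ 1 ?_ ?_
        · exact (MvPolynomial.homogeneousSubmodule (Fin (N + 1)) ℂ 1).sum_mem fun j _ =>
            (MvPolynomial.homogeneousSubmodule (Fin (N + 1)) ℂ 1).smul_mem _
              (MvPolynomial.isHomogeneous_X ℂ j)
        · intro z hz hz0
          have h3 := congrFun hb z
          rw [Finset.sum_apply] at h3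
          rw [map_sum]
          refine Eq.trans (Finset.sum_congr rfl fun j _ => ?_) h3
          rw [Pi.smul_apply, HFbAux.fn_of _ hz hz0, MvPolynomial.smul_eval, smul_eq_mul]
      have h4 := hnd _ h2 ((MvPolynomial.homogeneousSubmodule (Fin (N + 1)) ℂ 1).sum_mem fun j _ =>
            (MvPolynomial.homogeneousSubmodule (Fin (N + 1)) ℂ 1).smul_mem _
              (MvPolynomial.isHomogeneous_X ℂ j))
      have h5 := congrArg (MvPolynomial.eval (Pi.single i (1 : ℂ))) h4
      rw [map_sum, map_zero, Finset.sum_eq_single i] at h5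
      · rwa [MvPolynomial.smul_eval, MvPolynomial.eval_X, Pi.single_eq_same, mul_one] at h5
      · intro j _ hj
        rw [MvPolynomial.smul_eval, MvPolynomial.eval_X, Pi.single_eq_of_ne hj, mul_zero]
      · intro h
        exact absurd (Finset.mem_univ i) h
    have h2 := hReg 1 (N + 1) _ (fun i => HFbAux.fn_reg I (MvPolynomial.isHomogeneous_X ℂ i)) h1
    have h3 : hsum n s h 1 = (n + 1) + (if 1 ≤ s then h 1 else 0) := by
      unfold hsum
      rcases Nat.eq_zero_or_pos s with hs | hs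
      · subst hs
        simp [h0]
      · obtain ⟨s', rfl⟩ : ∃ s', s = s' + 1 := ⟨s - 1, by omega⟩
        rw [Finset.sum_range_succ', Finset.sum_range_succ', if_pos (Nat.le_add_left 1 s')]
        rw [Finset.sum_eq_zero (fun i _ => by rw [if_neg (by omega), mul_zero])]
        simp [h0]
        ring
    rw [h3] at h2
    rw [hP_coeff]
    split_ifs with h4
    · rw [if_pos h4] at h2
      have : c ≤ h 1 := by omega
      exact_mod_cast this
    · rw [if_neg h4] at h2
      omega
  -- conclusion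
  have hl : ∀ x v : Vx N, H.GLine I x v ↔ IsLine I x v ∧ DegEq I c a x v := by
    intro x v
    constructor
    · intro hG
      refine ⟨hG.1, ?_⟩
      obtain ⟨w, hw1, hw2⟩ := hcov x (by
        have := hG.1.2 1 0
        rwa [one_smul, zero_smul, add_zero] at this) (hG.1.1.ne_zero 0)
      unfold DegEq at hw2 ⊢
      filter_upwards [hG.2 x w hw1, hw2, hmin x v hG.1] with m h1 h2 h3
      omega
    · rintro ⟨hxv, hxa⟩
      refine ⟨hxv, fun x' v' hl' => ?_⟩
      filter_upwards [hxa, hmin x' v' hl'] with m h1 h2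
      omega
  obtain ⟨G, hG1, hG2⟩ := H.mSDH N c d I
    { pos := hc
      two_le := hd2
      large := by rw [hda]; omega
      prime := hI
      hom := hIh
      nd := hnd
      smooth := hS
      numW := hErr N c I d hI hIh hS hc (by omega) q (by rw [hq0]; exact hQP)
        (by rw [hq0]; exact ne_of_gt hq1') hqj hdiv
      numL := fun x v hxv => by
        filter_upwards [((hl x v).1 hxv).2] with m h1
        rw [hda]
        omega
      clos := fun x v0 P' hv0 hP' hPh' _ hv0P hpl' z hz hli => by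
        obtain ⟨J, hJ, hJh, hIJ, hJP, hJv, -⟩ := jJn tNull N I P' x hP' hPh' hpl'
        have hsub : ∀ w ∈ zer P', w ∈ zer J := fun w hw F hF => hw F (hJP hF)
        have hJl : ∀ w ∈ zer J, ∀ s t : ℂ, s • x + t • w ∈ zer I := by
          intro w hw s t F hF
          have h1 := hJv _ (JInjAux.zer_smul hJh hw t) s
          rw [add_comm] at h1
          exact h1 F (hIJ hF)
        exact (hl x z).2 ⟨⟨hli, fun s t => hpl' z hz s t⟩,
          cCon N c a I J x hI hIh hS hJ hJh hIJ hJv hJl v0 (hsub v0 hv0P) hv0.1.1 z (hsub z hz)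
            hli ((hl x v0).1 hv0).2⟩
      reg := fun k r f hf hli => by
        have h1 := hReg k r f hf hli
        have h2 := hHci N c _ (hP s h) d (QP_hsum hN s h) hprod k
        rw [← h2]
        exact_mod_cast h1
      cov := fun z hz hz0 => by
        obtain ⟨w, hw1, hw2⟩ := hcov z hz hz0
        exact ⟨w, (hl z w).2 ⟨hw1, hw2⟩⟩ }
  exact ⟨d, G, fun i => ⟨hd2 i, hG1 i⟩, hG2⟩


end Pool.Agent.Lib.MP_776403_ag.SD
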