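import Pool.Agent.Lib.MP_776403_ag.SD.Main
import Pool.Agent.Lib.MP_776403_ag.SD.K.KDD
import Pool.Agent.Lib.MP_776403_ag.SD.K.KEuT
import Pool.Agent.Lib.MP_776403_ag.SD.K.KEul
import Pool.Agent.Lib.MP_776403_ag.SD.K.KFam
import Pool.Agent.Lib.MP_776403_ag.SD.K.KGF
import Pool.Agent.Lib.MP_776403_ag.SD.K.KGV
import Pool.Agent.Lib.MP_776403_ag.SD.K.KHS
import Pool.Agent.Lib.MP_776403_ag.SD.K.KHV
import Pool.Agent.Lib.MP_776403_ag.SD.K.KHot
import Pool.Agent.Lib.MP_776403_ag.SD.K.KI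
import Pool.Agent.Lib.MP_776403_ag.SD.K.KII
import Pool.Agent.Lib.MP_776403_ag.SD.K.KLF
import Pool.Agent.Lib.MP_776403_ag.SD.K.KLoc
import Pool.Agent.Lib.MP_776403_ag.SD.K.KNoe
import Pool.Agent.Lib.MP_776403_ag.SD.K.KPV
import Pool.Agent.Lib.MP_776403_ag.SD.K.KRI
import Pool.Agent.Lib.MP_776403_ag.SD.K.KTP
import Pool.Agent.Lib.MP_776403_ag.SD.K.KTop
import Pool.Agent.Lib.MP_776403_ag.SD.K.KTri
import Pool.Agent.Lib.MP_776403_ag.SD.K.KVL
import Pool.Agent.Lib.MP_776403_ag.SD.K.RBas1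
import Pool.Agent.Lib.MP_776403_ag.SD.K.RBase
import Pool.Agent.Lib.MP_776403_ag.SD.K.RCar
import Pool.Agent.Lib.MP_776403_ag.SD.K.RCmp
import Pool.Agent.Lib.MP_776403_ag.SD.K.RDq
import Pool.Agent.Lib.MP_776403_ag.SD.K.RDual
import Pool.Agent.Lib.MP_776403_ag.SD.K.RFin
import Pool.Agent.Lib.MP_776403_ag.SD.K.RI
import Pool.Agent.Lib.MP_776403_ag.SD.K.RLap
import Pool.Agent.Lib.MP_776403_ag.SD.K.RLead
import Pool.Agent.Lib.MP_776403_ag.SD.K.RLocB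
import Pool.Agent.Lib.MP_776403_ag.SD.K.RLocI
import Pool.Agent.Lib.MP_776403_ag.SD.K.RLocJ
import Pool.Agent.Lib.MP_776403_ag.SD.K.RLocV
import Pool.Agent.Lib.MP_776403_ag.SD.K.RMu
import Pool.Agent.Lib.MP_776403_ag.SD.K.RReg
import Pool.Agent.Lib.MP_776403_ag.SD.K.RStep
import Pool.Agent.Lib.MP_776403_ag.SD.K.RSur
import Pool.Agent.Lib.MP_776403_ag.SD.K.RSyz
import Pool.Agent.Lib.MP_776403_ag.SD.K.RTen
import Pool.Agent.Lib.MP_776403_ag.SD.K.RTheta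
import Pool.Agent.Lib.MP_776403_ag.SD.K.SAct
import Pool.Agent.Lib.MP_776403_ag.SD.K.SCnj
import Pool.Agent.Lib.MP_776403_ag.SD.K.SDat
import Pool.Agent.Lib.MP_776403_ag.SD.K.SDec
import Pool.Agent.Lib.MP_776403_ag.SD.K.SDv
import Pool.Agent.Lib.MP_776403_ag.SD.K.SEul
import Pool.Agent.Lib.MP_776403_ag.SD.K.SFE
import Pool.Agent.Lib.MP_776403_ag.SD.K.SFr
import Pool.Agent.Lib.MP_776403_ag.SD.K.SGV
import Pool.Agent.Lib.MP_776403_ag.SD.K.SGr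
import Pool.Agent.Lib.MP_776403_ag.SD.K.SIV
import Pool.Agent.Lib.MP_776403_ag.SD.K.SKI
import Pool.Agent.Lib.MP_776403_ag.SD.K.SPerm
import Pool.Agent.Lib.MP_776403_ag.SD.K.SRi
import Pool.Agent.Lib.MP_776403_ag.SD.K.SRk
import Pool.Agent.Lib.MP_776403_ag.SD.K.SSg
import Pool.Agent.Lib.MP_776403_ag.SD.K.STB
import Pool.Agent.Lib.MP_776403_ag.SD.K.STau
import Pool.Agent.Lib.MP_776403_ag.SD.K.SwT
import Pool.Agent.Lib.MP_776403_ag.SD.M.Fin

/-!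
# THEOREM SD, stage 2: assembly of part K
-/

set_option autoImplicit false

namespace Pool.Agent.Lib.MP_776403_ag.SD

/-! ## Graded families, Koszul complex -/

theorem zIrr : S_Irr := nIrr tD6p

theorem zKHS : S_KHS := tKHS tKNoe

theorem zKFam : S_KFam := tKFam tKNoe tKDD tKHot

theorem zKEul : S_KEul := tKEul tKDD

theorem zKLoc : S_KLoc := tKLoc zIrr

theorem zKEuT : S_KEuT := tKEuT tKDD tKTri

theorem zKGF : S_KGF := tKGF tKNoe tKGV

theorem zKHV : S_KHV := tKHV tKNoe zKHS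

theorem zKPV : S_KPV := tKPV tKGV

theorem zKTop : S_KTop := tKTop tNull mPerp zIrr

theorem zKLF : S_KLF := tKLF tMinor

/-! ## Restriction to the diagonal -/

theorem zRSyz : S_RSyz := kRSyz tKos2

theorem zRReg : S_RReg := kRReg (kRLead zRSyz)

theorem zRBase : S_RBase := kRBase (kRBas1 kRCar) kRDq

theorem zRLocB : S_RLocB :=
  kRLocB zRBase (kRStep kRCar) kRFin kRTen kRMu zRReg (kRDual tMinor) kRDq

theorem zRLocI : S_RLocI := kRLocI zRLocB kRMu kRTheta kRCmp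

theorem zRLocJ : S_RLocJ := kRLocJ zRLocB kRMu kRTheta kRLap

theorem zRLocV : S_RLocV := kRLocV zRLocI zRLocJ

theorem zRSur : S_RSur := kRSur kRCar kRLap kRDq

theorem zRIa : S_RIa := kRI zRLocV zRSur kRDq tKNoe zKFam tKGV zKGF zKLoc

theorem zKRI : S_KRI := kKRI zRIa zKFam zKGF

/-- The self-intersection formula. -/
theorem zKI : S_KI := tKI zKRI zKEul tKTP zKGF tKGV zKPV

theorem zKII : S_KII := tKII zKRI zKEul tKTP zKGF tKGV zKPV

/-! ## The Adams operation -/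

theorem zSRi : S_SRi := kSRi zRIa tKTri zKFam zKGF kSwT

theorem zSSg : S_SSg := kSSg kSwT

theorem zSDv : S_SDv := kSDv zKHV kSGr tKGV

theorem zSKI : S_SKI := kSKI zKI zKLF tKGV

theorem zSRk : S_SRk := kSRk (kSFr tMinor) tKGV

theorem zSDat (hTr : S_STr) (hDim : S_SDim) : S_SDat :=
  kSDat (kSFE zSKI (kSEul zSRi zSSg zKEuT hTr kSwT zKGF)
    (kSIV (kSCnj kSAct) (kSDec kSAct) hDim (kSTau hDim zSSg kSAct)) zKPV zSDv kSGV tKGV zKTop zKLF)
    zKII zSDv kSGr zSRk zKTop zKPV tKGV zKHV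

/-! ## The error bound -/

theorem zNumErr : S_NumErr := mNumErr (mPErr zKI zKHV tKVL zKPV tKGV zKLF)

end Pool.Agent.Lib.MP_776403_ag.SD
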