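import Pool.Agent.Lib.MP_776403_ag.SD.Z.Spec
import Pool.Agent.Lib.MP_776403_ag.SD.V.Main
import Pool.Agent.Lib.MP_776403_ag.SD.C.Chern

/-!
# THEOREM H: the Chern roots are integers, by (B) or (C)
-/

set_option autoImplicit false

noncomputable section

namespace Pool.Agent.Lib.MP_776403_ag.SD

open Polynomial

namespace ZAux

/-- The two lowest coefficients of a product of factors `1 - T^(d_i)`. -/
theorem coeff_prod {c : ℕ} (d : Fin c → ℕ) (hd : ∀ i, 1 ≤ d i) (s : Finset (Fin c)) :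
    (∏ i ∈ s, (1 - X ^ (d i) : ℤ[X])).coeff 0 = 1 ∧
      (∏ i ∈ s, (1 - X ^ (d i) : ℤ[X])).coeff 1 = -((s.filter fun i => d i = 1).card : ℤ) := by
  classical
  induction s using Finset.induction_on with
  | empty =>
    constructor
    · simp
    · simp [Polynomial.coeff_one]
  | insert a s ha ih =>
    have h0 : (1 - X ^ (d a) : ℤ[X]).coeff 0 = 1 := by
      rw [Polynomial.coeff_sub, Polynomial.coeff_one_zero, Polynomial.coeff_X_pow,
        if_neg (by have := hd a; omega), sub_zero]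
    have h1 : (1 - X ^ (d a) : ℤ[X]).coeff 1 = if d a = 1 then -1 else 0 := by
      rw [Polynomial.coeff_sub, Polynomial.coeff_one, if_neg (by norm_num), Polynomial.coeff_X_pow]
      by_cases h : d a = 1
      · rw [if_pos h, if_pos h.symm]; ring
      · rw [if_neg h, if_neg (fun h' => h h'.symm), sub_zero]
    rw [Finset.prod_insert ha]
    refine ⟨?_, ?_⟩
    · rw [Polynomial.mul_coeff_zero, h0, ih.1, mul_one]
    · rw [Polynomial.mul_coeff_one, h0, h1, ih.1, ih.2, Finset.filter_insert]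
      by_cases h : d a = 1
      · rw [if_pos h, if_pos h, Finset.card_insert_of_notMem
          (fun hm => ha (Finset.mem_filter.1 hm).1)]
        push_cast
        ring
      · rw [if_neg h, if_neg h]
        ring

theorem coeff_pow (c : ℕ) : ((1 - X : ℤ[X]) ^ c).coeff 0 = 1 ∧
    ((1 - X : ℤ[X]) ^ c).coeff 1 = -(c : ℤ) := by
  have h := coeff_prod (fun _ : Fin c => 1) (fun _ => le_refl 1) Finset.univ
  rw [Finset.prod_const, Finset.card_univ, Fintype.card_fin] at h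
  simpa using h

/-- If `h_0 = 1`, `h_1 = c` and `(1-T)^c h = ∏ (1 - T^(d_i))` then all `d_i ≥ 2`. -/
theorem two_le {c : ℕ} (d : Fin c → ℕ) (hd : ∀ i, 1 ≤ d i) (h : ℤ[X]) (h0 : h.coeff 0 = 1)
    (h1 : h.coeff 1 = c) (hP : (1 - X : ℤ[X]) ^ c * h = ∏ i, (1 - X ^ (d i))) : ∀ i, 2 ≤ d i := by
  have e1 : ((1 - X : ℤ[X]) ^ c * h).coeff 1 = (∏ i, (1 - X ^ (d i) : ℤ[X])).coeff 1 := by
    rw [hP]
  rw [Polynomial.mul_coeff_one, (coeff_pow c).1, (coeff_pow c).2, h0, h1,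
    (coeff_prod d hd Finset.univ).2] at e1
  have e2 : ((Finset.univ.filter fun i => d i = 1).card : ℤ) = 0 := by linarith
  have e3 : (Finset.univ.filter fun i => d i = 1) = ∅ := by
    rw [← Finset.card_eq_zero]
    exact_mod_cast e2
  intro i
  have e4 : i ∉ Finset.univ.filter fun i => d i = 1 := by
    rw [e3]
    exact Finset.notMem_empty i
  have e5 : d i ≠ 1 := fun h => e4 (Finset.mem_filter.2 ⟨Finset.mem_univ i, h⟩)
  have := hd i
  omega

/-- Degrees: `∑ d_i = c + deg h`. -/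
theorem sum_eq {c : ℕ} (d : Fin c → ℕ) (hd : ∀ i, 1 ≤ d i) (h : ℤ[X]) (h0 : h ≠ 0)
    (hP : (1 - X : ℤ[X]) ^ c * h = ∏ i, (1 - X ^ (d i))) : ∑ i, d i = c + h.natDegree := by
  have e1 : ∀ k : ℕ, 1 ≤ k → (1 - X ^ k : ℤ[X]).natDegree = k := by
    intro k hk
    have h1 : (1 - X ^ k : ℤ[X]) = -(X ^ k - C 1) := by rw [C_1]; ring
    rw [h1, Polynomial.natDegree_neg, Polynomial.natDegree_X_pow_sub_C]
  have e2 : ∀ k : ℕ, 1 ≤ k → (1 - X ^ k : ℤ[X]) ≠ 0 := by
    intro k hk h'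
    have := e1 k hk
    rw [h', Polynomial.natDegree_zero] at this
    omega
  have e3 : (1 - X : ℤ[X]).natDegree = 1 := by
    have := e1 1 le_rfl
    rwa [pow_one] at this
  have e4 : (1 - X : ℤ[X]) ≠ 0 := by
    have := e2 1 le_rfl
    rwa [pow_one] at this
  have e5 := congrArg Polynomial.natDegree hP
  rw [Polynomial.natDegree_mul (pow_ne_zero c e4) h0, Polynomial.natDegree_pow, e3, mul_one,
    Polynomial.natDegree_prod _ _ (fun i _ => e2 (d i) (hd i))] at e5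
  rw [e5]
  exact (Finset.sum_congr rfl fun i _ => (e1 (d i) (hd i)).symm)

/-- (C): the elementary symmetric functions. -/
theorem dvd_of_int {c m : ℕ} (q : ℕ → ℤ[X]) (x : Fin c → ℂ) (d : Fin c → ℕ)
    (hx : ∀ i, x i = d i)
    (h : ∀ j, (PowerSeries.X : PowerSeries ℂ) ^ m ∣ SDV.tau (q j) - SDV.esx x j * SDV.tau (q 0)) :
    ∀ j, (1 - X : ℤ[X]) ^ m ∣ q j - SDV.esd d j * q 0 := by
  intro j
  rw [SDV.pT1 m]
  have h1 : SDV.tau (SDV.esd d j) = SDV.esx x j := by
    unfold SDV.esd SDV.esx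
    rw [SDV.tau, map_sum]
    refine Finset.sum_congr rfl fun A _ => ?_
    have h2 := (SDV.pT2 (X ^ (∑ i ∈ A, d i))).2.2.2 (∑ i ∈ A, d i)
    rw [SDV.tau] at h2
    rw [h2]
    congr 1
    push_cast
    rw [← Finset.sum_neg_distrib]
    simp only [hx]
    rw [Finset.sum_neg_distrib]
  have h3 : SDV.tau (q j - SDV.esd d j * q 0) =
      SDV.tau (q j) - SDV.esx x j * SDV.tau (q 0) := by
    rw [← h1]
    unfold SDV.tau
    rw [map_sub, map_mul]
  rw [h3]
  exact h j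

end ZAux

open ZAux

/-- THEOREM H from its parts. -/
theorem zH (hDat : S_SDat) (hGHS : S_GHS) (hNe : S_GNe) (hZH : S_ZH) : S_H := by
  intro N n s c I l hN hc hI hIh hnd hS hA hlarge hcase
  obtain ⟨hQP, h0, h1, hpos, hdeg, hev⟩ := hGHS N n s c I l hN hI hIh hnd hA
  set h : ℤ[X] := hpol I n s l with hh
  have hne := hNe N n s I l hI hIh hA
  obtain ⟨q, hq0, hDat', hqj⟩ := hDat N c (by omega) I h hI hIh hS hne hQP hev
  have hh0 : h ≠ 0 := by
    intro h'
    rw [h', Polynomial.coeff_zero] at h0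
    exact zero_ne_one h0
  -- the degrees
  obtain ⟨d, hd1, hP, hdiv⟩ : ∃ d : Fin c → ℕ, (∀ i, 1 ≤ d i) ∧
      (1 - X : ℤ[X]) ^ c * h = ∏ i, (1 - X ^ (d i)) ∧
      ∀ j, (1 - X : ℤ[X]) ^ (N + 1 - 2 * c) ∣ q j - SDV.esd d j * q 0 := by
    rcases hcase with ⟨hc2, hc3, hc4⟩ | hB
    · -- (C)
      obtain ⟨x, hx⟩ := SDV.pBr c (N + 1 - 2 * c) q (by omega) hDat'
      have hV := SDV.pP1 c (N + 1 - 2 * c) q x hDat' hx
      rw [hq0] at hV
      have hs1 : 1 ≤ h.natDegree := by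
        have h2 : h.coeff 1 ≠ 0 := by
          rw [h1]
          exact_mod_cast (by omega : c ≠ 0)
        exact Polynomial.le_natDegree_of_ne_zero h2
      obtain ⟨d, hd, hxd, hsum, hP⟩ := SDC.chernInt c h.natDegree (N + 1 - 2 * c) h x h0 h1 rfl
        (ne_of_gt hev) (by omega) (by omega) (by omega) hV
      exact ⟨d, fun i => by have := hd i; omega, hP, dvd_of_int q x d hxd hx⟩
    · -- (B)
      obtain ⟨d, hd, hP, hdiv⟩ := SDV.mBout c s (N + 1 - 2 * c) q hc hDat' (by rw [hq0]; exact hdeg)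
        (by rw [hq0]; exact hpos) (by rw [hq0]; exact h0) (by
          have e : 2 * c ^ 2 + 128 * (c + s) = 2 * c ^ 2 + 128 * c + 128 * s := by ring
          omega)
      rw [hq0] at hP
      exact ⟨d, hd, hP, hdiv⟩
  have hd2 := two_le d hd1 h h0 h1 hP
  have hsum := sum_eq d hd1 h hh0 hP
  have hlarge2 : 2 * ∑ i, d i + c ≤ N := by
    rcases hcase with ⟨hc2, hc3, hc4⟩ | hB
    · omega
    · omega
  obtain ⟨G, hG1, hG2⟩ := hZH N n s c I l d q hN hc hI hIh hnd hS hA hlarge hd2 hlarge2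
    (by rw [hq0]; exact hQP) (by rw [hq0]; exact ne_of_gt hev)
    (fun j hj => hqj j hj) (by rw [hq0]; exact hP) hdiv
  exact ⟨d, G, fun i => ⟨hd2 i, hG1 i⟩, hG2⟩

end Pool.Agent.Lib.MP_776403_ag.SD
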