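import Pool.Agent.Lib.MP_776403_ag.SD.Z.RH
import Pool.Agent.Lib.MP_776403_ag.SD.M.FinB
import Pool.Agent.Lib.MP_776403_ag.SD.J.Fin
import Pool.Agent.Lib.MP_776403_ag.SD.C.Chern

/-!
# THEOREM H (ACM form) in the linear range, from THEOREM W
-/

set_option autoImplicit false

noncomputable section

namespace Pool.Agent.Lib.MP_776403_ag.SD

open Polynomial

/-- THEOREM H, linear range: smooth nondegenerate arithmetically Cohen-Macaulay varieties of
codimension `c` in `ℙ^N` whose `h`-vector has length `≤ s + 1` are complete intersections if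
`N ≥ c (s + 2) + 1` and `N ≥ 3 c + 2 s + 1`. -/
def S_HW : Prop :=
  ∀ (N n s c : ℕ) (I : Ideal (Sx N)) (l : Fin (n + 1) → Sx N), N = n + c → 1 ≤ c →
    I.IsPrime → IsHom I → (∀ F ∈ I, F.IsHomogeneous 1 → F = 0) → Smooth I c → ACM I n s l →
    c * (s + 2) + 1 ≤ N → 3 * c + 2 * s + 1 ≤ N →
    ∃ (d : Fin c → ℕ) (G : Fin c → Sx N), (∀ i, 2 ≤ d i ∧ (G i).IsHomogeneous (d i)) ∧
      I = Ideal.span (Set.range G)

/-- The degree of the normal bundle on the lines of a cone of lines. -/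
def S_JLB : Prop :=
  ∀ (N c b : ℕ) (I : Ideal (Sx N)), I.IsPrime → IsHom I → Smooth I c → 1 ≤ c →
    (∀ J : Ideal (Sx N), J.IsPrime → IsHom J → I ≤ J →
      Gw (c - 1) (fun m => (Module.finrank ℂ (Lam I J c m) : ℤ) -
        (Module.finrank ℂ (gr J (m - b)) : ℤ))) →
    ∀ P : Ideal (Sx N), P.IsPrime → IsHom P → DimGe P (c + 2) → ∀ x : Vx N, x ≠ 0 →
    (∀ z ∈ zer P, ∀ s t : ℂ, s • x + t • z ∈ zer I) →
    ∀ v ∈ zer P, LinearIndependent ℂ ![x, v] → DegEq I c b x v

theorem zJLB (hV : S_JVb) (hJn : S_JJn) : S_JLB := by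
  intro N c b I hI hIh hS hc hnum P hP hPh hdim x hx0 hline v hv hind
  obtain ⟨J, hJ, hJh, hIJ, hJP, hJv, hJd⟩ := hJn N I P x hP hPh hline
  have hvJ : v ∈ zer J := fun F hF => hv F (hJP hF)
  have hxI : x ∈ zer I := by
    have := hline v hv 1 0
    rwa [one_smul, zero_smul, add_zero] at this
  refine hV N c b I J x hc hI hIh hS hJ hJh hIJ hxI hx0 hJv ?_ (hJd _ hdim) (hnum J hJ hJh hIJ)
    v hvJ hind
  intro z hz s t F hF
  have h1 := hJv _ (JInjAux.zer_smul hJh hz t) s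
  rw [add_comm] at h1
  exact h1 F (hIJ hF)

open RAux ZAux

/-- `q_c = T^b q_0`, `b` the sum of the Chern roots. -/
theorem dvd_det {c m b : ℕ} (q : ℕ → ℤ[X]) (y : Fin c → ℂ) (hb : ∑ i, y i = (b : ℂ))
    (h : (PowerSeries.X : PowerSeries ℂ) ^ m ∣ SDV.tau (q c) - SDV.esx y c * SDV.tau (q 0)) :
    (1 - X : ℤ[X]) ^ m ∣ q c - X ^ b * q 0 := by
  rw [SDV.pT1 m]
  have h1 : SDV.esx y c = SDV.tau (X ^ b) := by
    rw [(SDV.pT2 (X ^ b)).2.2.2 b]
    unfold SDV.esx
    have h2 : (Finset.univ : Finset (Fin c)).powersetCard c = {Finset.univ} := by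
      have := Finset.powersetCard_self (Finset.univ : Finset (Fin c))
      rwa [Finset.card_univ, Fintype.card_fin] at this
    rw [h2, Finset.sum_singleton, hb]
  have h3 : SDV.tau (q c - X ^ b * q 0) = SDV.tau (q c) - SDV.esx y c * SDV.tau (q 0) := by
    rw [h1]
    unfold SDV.tau
    rw [map_sub, map_mul]
  rw [h3]
  exact h

/-- THEOREM H in the linear range from its parts. -/
theorem zHW (hDat : S_SDat) (hW : S_WOut) (hGHS : S_GHS) (hNe : S_GNe) (hNumB : S_NumB)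
    (hAcm : S_GAcm2) (hJLB : S_JLB) (hMono : S_Mono) (hZH : S_ZH) : S_HW := by
  intro N n s c I l hN hc hI hIh hnd hS hA hlarge hlarge2
  obtain ⟨hQP, h0, h1, hpos, hdeg, hev⟩ := hGHS N n s c I l hN hI hIh hnd hA
  set h : ℤ[X] := hpol I n s l with hh
  have hne := hNe N n s I l hI hIh hA
  obtain ⟨q, hq0, hDat', hqj⟩ := hDat N c (by omega) I h hI hIh hS hne hQP hev
  have hh0 : h ≠ 0 := by
    intro h'
    rw [h', Polynomial.coeff_zero] at h0
    exact zero_ne_one h0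
  obtain ⟨y, hy⟩ := SDV.pBr c (N + 1 - 2 * c) q (by omega) hDat'
  have hV := SDV.pP1 c (N + 1 - 2 * c) q y hDat' hy
  rw [hq0] at hV
  -- the sum of the Chern roots
  have hsum : ∑ i, y i = ((c + h.natDegree : ℕ) : ℂ) := by
    have hV' := hV
    rw [SDV.tau_ev, SDV.gx_eq] at hV'
    exact SDC.Aux.sum_roots c h.natDegree (N + 1 - 2 * c) h y (by rw [h0]; exact one_ne_zero) rfl
      (by omega) hV'
  set b : ℕ := c + h.natDegree with hb
  -- the degree of the lines
  have hnum : ∀ J : Ideal (Sx N), J.IsPrime → IsHom J → I ≤ J →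
      Gw (c - 1) (fun m => (Module.finrank ℂ (Lam I J c m) : ℤ) -
        (Module.finrank ℂ (gr J (m - b)) : ℤ)) :=
    hNumB N c b I hI hIh hS hc (by omega) q (by rw [hq0]; exact hQP)
      (by rw [hq0]; exact ne_of_gt hev) (hqj c le_rfl) (dvd_det q y hsum (hy c))
  have hline : ∀ x v : Vx N, IsLine I x v → DegEq I c b x v := by
    intro x v hl
    have hx0 : x ≠ 0 := hl.1.ne_zero 0
    have hxI : x ∈ zer I := by
      have := hl.2 1 0
      rwa [one_smul, zero_smul, add_zero] at this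
    obtain ⟨P, hPp, hPh, _, hvP, hPD, _, hpl⟩ :=
      (hAcm N n s c I l hI hIh hS hA).1 x hxI hx0 v hl.2
    have hD : DimGe P (c + 2) := by
      have h1 : c + 2 ≤ N + 1 - c * (s + 1) := by
        have h2 : c * (s + 2) = c * (s + 1) + c := by ring
        omega
      exact hMono _ P _ _ h1 hPD
    exact hJLB N c b I hI hIh hS hc hnum P hPp hPh hD x hx0 hpl v hvP hl.1
  -- the cone of lines
  obtain ⟨x, hx, hx0⟩ := hne
  have hcov := (hAcm N n s c I l hI hIh hS hA).2 (by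
    have h2 : c * (s + 2) = c * (s + 1) + c := by ring
    omega)
  obtain ⟨v, hv1, hv2⟩ := hcov x hx hx0
  obtain ⟨P, hPp, hPh, hIP, hPD, -, hst, hpl⟩ := H.mLineE N c b I hI hIh hS x v ⟨hv1, hv2⟩ (by
    unfold H.DegLe
    filter_upwards [hline x v ⟨hv1, hv2⟩] with m hm
    omega)
  have hPD' : DimGe P (b + c + 2) := hMono _ P _ _ (by omega) hPD
  obtain ⟨d, hd1, hyd, hda⟩ := hW N c b I hc hI hIh hS x P hx0 hPp hPh hIP hPD' hst hpl
    (fun z hz hli => hline x z ⟨hli, hpl z hz⟩) q hDat' (by rw [hq0]; exact hQP) hqj y hy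
  have hdiv := dvd_of_int q y d hyd hy
  -- the product formula
  have hprod : (1 - X : ℤ[X]) ^ c * h = ∏ i, (1 - X ^ (d i)) := by
    rw [← tau_prod y d hyd] at hV
    have h2 : SDV.tau ((1 - X) ^ c * h) - SDV.tau (∏ i, (1 - X ^ (d i))) =
        SDV.tau ((1 - X) ^ c * h - ∏ i, (1 - X ^ (d i))) := by
      unfold SDV.tau
      rw [map_sub]
    rw [h2, ← SDV.pT1] at hV
    refine sub_eq_zero.1 (eq_zero_of_dvd hV ?_)
    have e3 : (1 - X : ℤ[X]).natDegree ≤ 1 := by
      have h1 : (1 - X : ℤ[X]) = -(X - C 1) := by rw [C_1]; ring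
      rw [h1, natDegree_neg, natDegree_X_sub_C]
    have e4 : ((1 - X : ℤ[X]) ^ c * h).natDegree ≤ b := by
      refine natDegree_mul_le.trans (add_le_add ?_ le_rfl)
      refine natDegree_pow_le.trans ?_
      calc c * (1 - X : ℤ[X]).natDegree ≤ c * 1 := Nat.mul_le_mul_left c e3
        _ = c := mul_one c
    have e5 : (∏ i, (1 - X ^ (d i)) : ℤ[X]).natDegree ≤ b := by
      rw [← hda]
      refine (natDegree_prod_le _ _).trans (Finset.sum_le_sum fun i _ => ?_)
      refine (natDegree_sub_le _ _).trans ?_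
      rw [natDegree_one, natDegree_X_pow]
      exact max_le (Nat.zero_le _) le_rfl
    have e6 := natDegree_sub_le ((1 - X : ℤ[X]) ^ c * h) (∏ i, (1 - X ^ (d i)))
    have e7 := max_le e4 e5
    omega
  have hd2 := two_le d hd1 h h0 h1 hprod
  obtain ⟨G, hG1, hG2⟩ := hZH N n s c I l d q hN hc hI hIh hnd hS hA hlarge hd2
    (by rw [hda]; omega) (by rw [hq0]; exact hQP) (by rw [hq0]; exact ne_of_gt hev)
    (fun j hj => hqj j hj) (by rw [hq0]; exact hprod) hdiv
  exact ⟨d, G, fun i => ⟨hd2 i, hG1 i⟩, hG2⟩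

end Pool.Agent.Lib.MP_776403_ag.SD
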