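import Pool.Agent.Lib.MP_776403_ag.SD.Z.Spec
import Pool.Agent.Lib.MP_776403_ag.SD.H.Main
import Pool.Agent.Lib.MP_776403_ag.SD.J.Spec

/-!
# THEOREM H: from the integrality of the Chern roots to complete intersections
-/

set_option autoImplicit false

open MvPolynomial

noncomputable section

namespace Pool.Agent.Lib.MP_776403_ag.SD

theorem zZH (hErr : S_NumErr) (hHci : S_GHci) (hReg : S_GReg) (hNe : S_GNe) (hAcm : S_GAcm2)
    (hMono : S_Mono) (hGL : S_JL2) : S_ZH := by
  intro N n s c I l d q hN hc hI hIh hnd hS hA hlarge hd hd2 hq0 hq1 hq hP hdiv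
  have hdc : 2 * c ≤ ∑ i, d i := by
    calc 2 * c = ∑ _i : Fin c, 2 := by
          rw [Finset.sum_const, Finset.card_univ, Fintype.card_fin, smul_eq_mul, mul_comm]
      _ ≤ _ := Finset.sum_le_sum fun i _ => hd i
  have hnum : ∀ J : Ideal (Sx N), J.IsPrime → IsHom J → I ≤ J → NumErr I J d c :=
    hErr N c I d hI hIh hS hc (by omega) q hq0 hq1 hq hdiv
  have hne := hNe N n s I l hI hIh hA
  -- all lines have the same degree
  have hline : ∀ x v : Vx N, IsLine I x v → ∀ᶠ m : ℕ in Filter.atTop,
      Module.finrank ℂ (Lam I (lineI x v) 1 m) + ∑ i, d i = c * (m + 1) := by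
    intro x v hl
    have hx0 : x ≠ 0 := hl.1.ne_zero 0
    have hxI : x ∈ zer I := by
      have := hl.2 1 0
      rwa [one_smul, zero_smul, add_zero] at this
    obtain ⟨P, hPp, hPh, _, hvP, hPD, _, hpl⟩ :=
      (hAcm N n s c I l hI hIh hS hA).1 x hxI hx0 v hl.2
    have hD : DimGe P (c + 2) := by
      have h1 : c + 2 ≤ N + 1 - c * (s + 1) := by
        have h2 : c * (s + 2) = c * (s + 1) + c := by ring
        omega
      exact hMono _ P _ _ h1 hPD
    exact hGL N c d I hI hIh hS hc hnum P hPp hPh hD x hx0 hpl v hvP hl.1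
  have hG : ∀ x v : Vx N, IsLine I x v → H.GLine I x v := by
    intro x v hl
    refine ⟨hl, fun x' v' hl' => ?_⟩
    filter_upwards [hline x v hl, hline x' v' hl'] with m h1 h2
    omega
  refine H.mSDH N c d I ?_
  refine
    { pos := hc
      two_le := hd
      large := hd2
      prime := hI
      hom := hIh
      nd := hnd
      smooth := hS
      numW := hnum
      numL := ?_
      clos := ?_
      reg := ?_
      cov := ?_ }
  · intro x v hl
    filter_upwards [hline x v hl.1] with m h1
    omega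
  · intro x v0 P _ _ _ _ _ hpl z hz hli
    exact hG x z ⟨hli, fun s t => hpl z hz s t⟩
  · intro k r f hf hli
    have h1 := (hReg N n s I l (by omega) hI hIh hne hA).2 k r f hf hli
    have h2 := hHci N c _ (q 0) d hq0 hP k
    rw [← h2]
    exact_mod_cast h1
  · intro y hy hy0
    have hcov := (hAcm N n s c I l hI hIh hS hA).2 (by
      have h2 : c * (s + 2) = c * (s + 1) + c := by ring
      omega)
    obtain ⟨v, hv1, hv2⟩ := hcov y hy hy0
    exact ⟨v, hG y v ⟨hv1, hv2⟩⟩

end Pool.Agent.Lib.MP_776403_ag.SD
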