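import Pool.Agent.Lib.MP_776403_ag.SD.Z.MainK
import Pool.Agent.Lib.MP_776403_ag.SD.Z.ZH
import Pool.Agent.Lib.MP_776403_ag.SD.Z.HH
import Pool.Agent.Lib.MP_776403_ag.SD.Z.HW
import Pool.Agent.Lib.MP_776403_ag.SD.K.STr
import Pool.Agent.Lib.MP_776403_ag.SD.K.SDim
import Pool.Agent.Lib.MP_776403_ag.SD.J.Fin
import Pool.Agent.Lib.MP_776403_ag.SD.G.GAcm
import Pool.Agent.Lib.MP_776403_ag.SD.G.GCone
import Pool.Agent.Lib.MP_776403_ag.SD.G.GGen
import Pool.Agent.Lib.MP_776403_ag.SD.G.GHS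
import Pool.Agent.Lib.MP_776403_ag.SD.G.GHci
import Pool.Agent.Lib.MP_776403_ag.SD.G.GLoc
import Pool.Agent.Lib.MP_776403_ag.SD.G.GNe
import Pool.Agent.Lib.MP_776403_ag.SD.G.GReg

/-!
# THEOREM SD, stage 2: final assembly (modulo THEOREM W, `S_WOut`)
-/

set_option autoImplicit false

namespace Pool.Agent.Lib.MP_776403_ag.SD

/-- The functional equation of the K-theoretic conormal data. -/
theorem zSDatfin : S_SDat := zSDat (kSTr kSTB kSPerm tKGV) kSDim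

theorem zGAcm : S_GAcm2 :=
  gAcm2 gGen gLoc (gCone2 mKrull tNull mLinS eLinB tTB) tMono tNull

theorem zZHfin : S_ZH :=
  zZH zNumErr gHci (gReg tD6p tNull) (gNe tD6p) zGAcm tMono jL2fin

/-- THEOREM H, with the numerical ranges (B), (C). -/
theorem zHfin : S_H := zH zSDatfin gHS (gNe tD6p) zZHfin

theorem zNumB : S_NumB := mNumB (mPErrB zKI zKHV tKVL zKPV tKGV zKLF)

theorem zJLBfin : S_JLB := zJLB jVbfin (jJn tNull)

/-- THEOREM H, linear range. -/
theorem zHWfin (hW : S_WOut) : S_HW :=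
  zHW zSDatfin hW gHS (gNe tD6p) zNumB zGAcm zJLBfin tMono zZHfin

/-- THEOREM R. -/
theorem zRfin (hW : S_WOut) : S_R := zR zSDatfin hW zNumErr gHci

end Pool.Agent.Lib.MP_776403_ag.SD
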