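import Pool.Agent.Lib.MP_776403_ag.SD.Z.RSpec
import Pool.Agent.Lib.MP_776403_ag.SD.Main2

/-!
# Lines from a bound for the Hilbert function; forms as regular functions
-/

set_option autoImplicit false

open MvPolynomial

noncomputable section

namespace Pool.Agent.Lib.MP_776403_ag.SD

theorem zCovH : S_Null → S_Noe → S_Rank → S_DimS → S_Model → S_Lift → S_Close → S_CovH := by
  intro hNull hNoe hRank hDimS hModel hLift hClose N c D I hN hP hH hnd hS hfin
  -- `X` is not empty
  have hne : ∃ y ∈ zer I, y ≠ 0 := by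
    by_contra hcon
    push Not at hcon
    have h1 : (X 0 : Sx N) ∈ I := by
      refine (hNull N I hP hH).1 (X 0) (fun z hz => ?_)
      rw [hcon z hz]
      simp
    have h2 := hnd _ h1 (isHomogeneous_X ℂ 0)
    exact X_ne_zero (R := ℂ) (0 : Fin (N + 1)) h2
  have hcN : c ≤ N := by omega
  obtain ⟨r, y, hy1, hy2, hy3⟩ := hNoe N I hP hH
  have hr : N + 1 - c ≤ r := by
    refine hDimS N c I hP hH hS hne r y (fun j => ?_)
    obtain ⟨m, p, _, h⟩ := hy3 j
    exact ⟨m, p, h⟩
  have hr' : (N - c) + 1 ≤ r := by omega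
  have hRk := hRank N I D (N - c) hfin r y hy1 hr'
  have hre : r = (N - c) + 1 := by
    refine (hRk 1 (fun _ => 1) ?_).2 le_rfl
    intro b hb
    have h1 : aeval y (b 0) ∈ I := by simpa using hb
    have h2 : aeval (fun i => Ideal.Quotient.mk I (y i)) (b 0) = 0 := by
      have h3 : Ideal.Quotient.mkₐ ℂ I (aeval y (b 0)) = 0 := by
        rw [Ideal.Quotient.mkₐ_eq_mk]
        exact Ideal.Quotient.eq_zero_iff_mem.2 h1
      rw [← AlgHom.comp_apply, MvPolynomial.comp_aeval] at h3
      exact h3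
    have h4 : b 0 = 0 := (injective_iff_map_eq_zero _).1 hy2 _ h2
    funext i
    have : i = 0 := Subsingleton.elim _ _
    rw [this, h4]
    rfl
  obtain ⟨M, hM⟩ := hModel N I hP hH r y D hy1 hy2 hy3 (fun ρ g hb => (hRk ρ g hb).1)
  have hMr : M.ρ < r := by omega
  exact hClose N I hP hH (aeval M.z M.g) M.gI
    (fun x hx hx0 hg => hLift N I hP hH r M hMr x hx hx0 hg)

open HFbAux in
/-- The forms of degree `m` give regular functions. -/
theorem forms_reg {N : ℕ} (I : Ideal (Sx N)) (hI : I.IsPrime) (hhom : IsHom I)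
    (hne : ∃ y ∈ zer I, y ≠ 0) (m : ℕ) :
    ∃ f : Fin (Module.finrank ℂ (gr I m)) → (Vx N → ℂ), (∀ i, IsReg I m (f i)) ∧
      LinearIndependent ℂ f := by
  have hN : S_Null := tNull
  have := fin_gr I m
  let b := Module.finBasis ℂ (gr I m)
  have hb : ∀ i, ∃ P : Sx N, P.IsHomogeneous m ∧ Ideal.Quotient.mk I P = (b i : Sx N ⧸ I) := by
    intro i
    obtain ⟨P, hP, hP'⟩ := (b i).2
    exact ⟨P, hP, hP'⟩
  choose P hP hP' using hb
  refine ⟨fun i => fn I (P i), fun i => fn_reg I (hP i), ?_⟩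
  rw [Fintype.linearIndependent_iff]
  intro a ha i
  have hF : (∑ j, a j • P j) ∈ I := by
    refine (hN N I hI hhom).2 hne _ m ?_ ?_
    · exact (homogeneousSubmodule (Fin (N + 1)) ℂ m).sum_mem fun j _ =>
        (homogeneousSubmodule (Fin (N + 1)) ℂ m).smul_mem _ (hP j)
    · intro z hz hz0
      have h1 := congrFun ha z
      rw [Finset.sum_apply] at h1
      rw [map_sum]
      refine Eq.trans (Finset.sum_congr rfl fun j _ => ?_) h1
      rw [Pi.smul_apply, fn_of _ hz hz0, smul_eval, smul_eq_mul]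
  have h2 : ∑ j, a j • (b j : Sx N ⧸ I) = 0 := by
    have h3 := Ideal.Quotient.eq_zero_iff_mem.mpr hF
    have h4 : Ideal.Quotient.mk I (∑ j, a j • P j) = ∑ j, a j • Ideal.Quotient.mk I (P j) := by
      rw [map_sum]
      rfl
    rw [h4] at h3
    rw [← h3]
    exact Finset.sum_congr rfl fun j _ => by rw [hP']
  have h5 : ∑ j, a j • b j = 0 := by
    apply Subtype.ext
    rw [Submodule.coe_sum]
    exact h2
  exact Fintype.linearIndependent_iff.mp b.linearIndependent a h5 i

theorem mCovH : S_CovH :=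
  zCovH tNull lNoe lRank mDimS (lModel lPrim) mLift mClose

end Pool.Agent.Lib.MP_776403_ag.SD
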