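import Pool.Agent.Lib.MP_776403_ag.SD.Z.HH
import Pool.Agent.Lib.MP_776403_ag.SD.Z.CovH
import Pool.Agent.Lib.MP_776403_ag.SD.H.Main

/-!
# THEOREM R from its parts
-/

set_option autoImplicit false

noncomputable section

namespace Pool.Agent.Lib.MP_776403_ag.SD

open Polynomial

namespace RAux

/-- The `h`-polynomial. -/
def hP (s : ℕ) (h : ℕ → ℕ) : ℤ[X] := ∑ i ∈ Finset.range (s + 1), monomial i (h i : ℤ)

theorem hP_coeff (s : ℕ) (h : ℕ → ℕ) (k : ℕ) :
    (hP s h).coeff k = if k ≤ s then (h k : ℤ) else 0 := by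
  unfold hP
  rw [finsetSum_coeff]
  simp only [coeff_monomial]
  rw [Finset.sum_ite_eq']
  simp only [Finset.mem_range, Nat.lt_succ_iff]

theorem hP_deg (s : ℕ) (h : ℕ → ℕ) : (hP s h).natDegree ≤ s := by
  refine natDegree_le_iff_coeff_eq_zero.2 fun k hk => ?_
  rw [hP_coeff, if_neg (by omega)]

theorem hP_eval (s : ℕ) (h : ℕ → ℕ) : (hP s h).eval 1 = ((∑ i ∈ Finset.range (s + 1), h i : ℕ) : ℤ) := by
  unfold hP
  rw [eval_finsetSum]
  push_cast
  exact Finset.sum_congr rfl fun i _ => by rw [eval_monomial, one_pow, mul_one]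

/-- The generating function of `hsum`. -/
theorem ps_hsum (n s : ℕ) (h : ℕ → ℕ) :
    (1 - PowerSeries.X) ^ (n + 1) * ps (hsum n s h) = ((hP s h : ℤ[X]) : PowerSeries ℤ) := by
  have h1 : (PowerSeries.mk fun k => (Nat.choose (n + k) n : ℤ)) *
      ((1 - PowerSeries.X) ^ (n + 1)) = 1 :=
    PowerSeries.mk_add_choose_mul_one_sub_pow_eq_one ℤ n
  have h2 : ps (hsum n s h) = ((hP s h : ℤ[X]) : PowerSeries ℤ) *
      (PowerSeries.mk fun k => (Nat.choose (n + k) n : ℤ)) := by
    ext k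
    have h3 : ((hP s h : ℤ[X]) : PowerSeries ℤ) =
        ∑ i ∈ Finset.range (s + 1), PowerSeries.C (h i : ℤ) * PowerSeries.X ^ i := by
      unfold hP
      have h5 : ∀ p : Polynomial ℤ, (p : PowerSeries ℤ) = Polynomial.coeToPowerSeries.ringHom p :=
        fun p => rfl
      rw [h5, map_sum]
      refine Finset.sum_congr rfl fun i _ => ?_
      rw [← h5, ← C_mul_X_pow_eq_monomial, Polynomial.coe_mul, Polynomial.coe_C, Polynomial.coe_pow,
        Polynomial.coe_X]
    rw [h3, Finset.sum_mul, map_sum]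
    unfold ps hsum
    rw [PowerSeries.coeff_mk]
    push_cast
    refine Finset.sum_congr rfl fun i _ => ?_
    rw [mul_assoc, PowerSeries.coeff_C_mul, PowerSeries.coeff_X_pow_mul']
    congr 1
    split_ifs with h9
    · rw [PowerSeries.coeff_mk]
    · rfl
  rw [h2, mul_comm, mul_assoc, h1, mul_one]

theorem QP_hsum {N n c : ℕ} (hN : N = n + c) (s : ℕ) (h : ℕ → ℕ) :
    QP N c (hsum n s h) (hP s h) := by
  unfold QP
  have e : N + 1 = c + (n + 1) := by omega
  rw [e, pow_add, mul_assoc, ps_hsum, Polynomial.coe_mul, Polynomial.coe_pow, Polynomial.coe_sub,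
    Polynomial.coe_one, Polynomial.coe_X]

/-- Change of finitely many values. -/
theorem QP_change {N n c : ℕ} (hN : N = n + c) {f g : ℕ → ℕ} {q : ℤ[X]} (hf : QP N c f q)
    (K : ℕ) (hK : ∀ k ≥ K, g k = f k) :
    QP N c g (q - (1 - X) ^ (n + 1) *
      ∑ k ∈ Finset.range K, monomial k ((f k : ℤ) - (g k : ℤ))) := by
  unfold QP at hf ⊢
  set E : ℤ[X] := ∑ k ∈ Finset.range K, monomial k ((f k : ℤ) - (g k : ℤ)) with hE
  have h1 : ps g = ps f - (E : PowerSeries ℤ) := by
    ext k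
    rw [map_sub, Polynomial.coeff_coe, hE, finsetSum_coeff]
    simp only [coeff_monomial]
    rw [Finset.sum_ite_eq']
    unfold ps
    rw [PowerSeries.coeff_mk, PowerSeries.coeff_mk]
    split_ifs with h2
    · ring
    · rw [hK k (by rw [Finset.mem_range] at h2; omega), sub_zero]
  have e : N + 1 = c + (n + 1) := by omega
  rw [h1, mul_sub, hf, mul_sub, Polynomial.coe_sub]
  congr 1
  rw [e, ← mul_assoc, ← pow_add, Polynomial.coe_mul, Polynomial.coe_pow, Polynomial.coe_sub,
    Polynomial.coe_one, Polynomial.coe_X]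

theorem tau_prod {c : ℕ} (y : Fin c → ℂ) (d : Fin c → ℕ) (hy : ∀ i, y i = d i) :
    SDV.tau (∏ i, (1 - X ^ (d i))) = SDV.gx y := by
  unfold SDV.gx
  have h1 : ∀ F : ℤ[X], SDV.tau F = Polynomial.aeval (SDV.eu (-1)) F := fun _ => rfl
  rw [h1, map_prod]
  refine Finset.prod_congr rfl fun i _ => ?_
  rw [map_sub, map_one, ← h1, (SDV.pT2 (X ^ (d i))).2.2.2 (d i), hy]

/-- Divisibility by a high power of `1 - T`. -/
theorem eq_zero_of_dvd {m : ℕ} {F : ℤ[X]} (h : (1 - X : ℤ[X]) ^ m ∣ F) (hd : F.natDegree < m) :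
    F = 0 := by
  refine Polynomial.eq_zero_of_dvd_of_natDegree_lt h ?_
  have e3 : (1 - X : ℤ[X]).natDegree = 1 := by
    have h1 : (1 - X : ℤ[X]) = -(X - C 1) := by rw [C_1]; ring
    rw [h1, natDegree_neg, natDegree_X_sub_C]
  rw [natDegree_pow, e3, mul_one]
  exact hd

/-- If `h_0 = 1`, `h_1 ≥ c` and `(1-T)^c h = ∏ (1 - T^(d_i))` then all `d_i ≥ 2`. -/
theorem two_le' {c : ℕ} (d : Fin c → ℕ) (hd : ∀ i, 1 ≤ d i) (h : ℤ[X]) (h0 : h.coeff 0 = 1)
    (h1 : (c : ℤ) ≤ h.coeff 1) (hP : (1 - X : ℤ[X]) ^ c * h = ∏ i, (1 - X ^ (d i))) :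
    ∀ i, 2 ≤ d i := by
  have e1 : ((1 - X : ℤ[X]) ^ c * h).coeff 1 = (∏ i, (1 - X ^ (d i) : ℤ[X])).coeff 1 := by
    rw [hP]
  rw [Polynomial.mul_coeff_one, (ZAux.coeff_pow c).1, (ZAux.coeff_pow c).2, h0,
    (ZAux.coeff_prod d hd Finset.univ).2] at e1
  have e2 : ((Finset.univ.filter fun i => d i = 1).card : ℤ) ≤ 0 := by linarith
  have e3 : (Finset.univ.filter fun i => d i = 1) = ∅ := by
    rw [← Finset.card_eq_zero]
    have : (Finset.univ.filter fun i => d i = 1).card ≤ 0 := by exact_mod_cast e2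
    omega
  intro i
  have e4 : i ∉ Finset.univ.filter fun i => d i = 1 := by
    rw [e3]
    exact Finset.notMem_empty i
  have e5 : d i ≠ 1 := fun h => e4 (Finset.mem_filter.2 ⟨Finset.mem_univ i, h⟩)
  have := hd i
  omega

end RAux

open RAux

/-- THEOREM R from its parts. -/
theorem zR (hDat : S_SDat) (hW : S_WOut) (hErr : S_NumErr) (hHci : S_GHci) : S_R := by
  intro N n c s a I h hN hc hI hIh hnd hS h0 hHP hReg hdeg hcov hra hrs
  -- `X` is not empty
  have hne : ∃ y ∈ zer I, y ≠ 0 := by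
    by_contra hcon
    push Not at hcon
    have h1 : (MvPolynomial.X 0 : Sx N) ∈ I := by
      refine (tNull N I hI hIh).1 (MvPolynomial.X 0) (fun z hz => ?_)
      rw [hcon z hz]
      simp
    have h2 := hnd _ h1 (MvPolynomial.isHomogeneous_X ℂ 0)
    exact MvPolynomial.X_ne_zero (R := ℂ) (0 : Fin (N + 1)) h2
  -- the numerator of the Hilbert series
  obtain ⟨K, hK⟩ := Filter.eventually_atTop.1 hHP
  set E : ℤ[X] := ∑ k ∈ Finset.range K,
    monomial k ((hsum n s h k : ℤ) - (Module.finrank ℂ (gr I k) : ℤ)) with hE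
  set q0 : ℤ[X] := hP s h - (1 - X) ^ (n + 1) * E with hq0d
  have hQP : QP N c (fun k => Module.finrank ℂ (gr I k)) q0 :=
    QP_change hN (QP_hsum hN s h) K hK
  have hq1 : q0.eval 1 = ((∑ i ∈ Finset.range (s + 1), h i : ℕ) : ℤ) := by
    rw [hq0d, eval_sub, eval_mul, eval_pow, eval_sub, eval_one, eval_X, sub_self,
      zero_pow (by omega), zero_mul, sub_zero, hP_eval]
  have hq1' : 0 < q0.eval 1 := by
    rw [hq1]
    have h1 : h 0 ≤ ∑ i ∈ Finset.range (s + 1), h i :=
      Finset.single_le_sum (f := h) (fun _ _ => Nat.zero_le _) (Finset.mem_range.2 (by omega))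
    rw [h0] at h1
    exact_mod_cast h1
  obtain ⟨q, hq0, hDat', hqj⟩ := hDat N c (by omega) I q0 hI hIh hS hne hQP hq1'
  obtain ⟨y, hy⟩ := SDV.pBr c (N + 1 - 2 * c) q (by omega) hDat'
  -- the cone of lines
  obtain ⟨x, hx, hx0⟩ := hne
  obtain ⟨v, hv1, hv2⟩ := hcov x hx hx0
  obtain ⟨P, hPp, hPh, hIP, hPD, -, hst, hpl⟩ := H.mLineE N c a I hI hIh hS x v ⟨hv1, hv2⟩ (by
    unfold H.DegLe
    filter_upwards [hdeg x v ⟨hv1, hv2⟩] with m hm
    omega)
  have hPD' : DimGe P (a + c + 2) := tMono _ P _ _ (by omega) hPD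
  obtain ⟨d, hd1, hyd, hda⟩ := hW N c a I hc hI hIh hS x P hx0 hPp hPh hIP hPD' hst hpl
    (fun z hz hli => hdeg x z ⟨hli, hpl z hz⟩) q hDat' (by rw [hq0]; exact hQP) hqj y hy
  have hdiv := ZAux.dvd_of_int q y d hyd hy
  have hac : c ≤ a := by
    calc c = ∑ _i : Fin c, 1 := by simp
      _ ≤ ∑ i, d i := Finset.sum_le_sum fun i _ => hd1 i
      _ = a := hda
  -- the product formula
  have hprod : (1 - X : ℤ[X]) ^ c * hP s h = ∏ i, (1 - X ^ (d i)) := by
    have h1 := SDV.pP1 c (N + 1 - 2 * c) q y hDat' hy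
    rw [← tau_prod y d hyd, hq0] at h1
    have h2 : SDV.tau ((1 - X) ^ c * q0) - SDV.tau (∏ i, (1 - X ^ (d i))) =
        SDV.tau ((1 - X) ^ c * q0 - ∏ i, (1 - X ^ (d i))) := by
      unfold SDV.tau
      rw [map_sub]
    rw [h2, ← SDV.pT1] at h1
    have h3 : (1 - X : ℤ[X]) ^ (N + 1 - 2 * c) ∣
        (1 - X) ^ c * hP s h - ∏ i, (1 - X ^ (d i)) := by
      have h4 : (1 - X : ℤ[X]) ^ c * hP s h - ∏ i, (1 - X ^ (d i)) =
          ((1 - X) ^ c * q0 - ∏ i, (1 - X ^ (d i))) + (1 - X) ^ (c + (n + 1)) * E := by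
        rw [hq0d, pow_add]
        ring
      rw [h4]
      refine dvd_add h1 (Dvd.dvd.mul_right (pow_dvd_pow _ (by omega)) _)
    have h5 := eq_zero_of_dvd h3 ?_
    · exact sub_eq_zero.1 h5
    · have e3 : (1 - X : ℤ[X]).natDegree ≤ 1 := by
        have h1 : (1 - X : ℤ[X]) = -(X - C 1) := by rw [C_1]; ring
        rw [h1, natDegree_neg, natDegree_X_sub_C]
      have e4 : ((1 - X : ℤ[X]) ^ c * hP s h).natDegree ≤ c + s := by
        refine natDegree_mul_le.trans (add_le_add ?_ (hP_deg s h))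
        refine natDegree_pow_le.trans ?_
        calc c * (1 - X : ℤ[X]).natDegree ≤ c * 1 := Nat.mul_le_mul_left c e3
          _ = c := mul_one c
      have e5 : (∏ i, (1 - X ^ (d i)) : ℤ[X]).natDegree ≤ a := by
        rw [← hda]
        refine (natDegree_prod_le _ _).trans (Finset.sum_le_sum fun i _ => ?_)
        refine (natDegree_sub_le _ _).trans ?_
        rw [natDegree_one, natDegree_X_pow]
        exact max_le (Nat.zero_le _) le_rfl
      have e6 := natDegree_sub_le ((1 - X : ℤ[X]) ^ c * hP s h) (∏ i, (1 - X ^ (d i)))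
      have e7 : max ((1 - X : ℤ[X]) ^ c * hP s h).natDegree (∏ i, (1 - X ^ (d i)) : ℤ[X]).natDegree
          ≤ max (c + s) a := max_le_max e4 e5
      have e8 : max (c + s) a < N + 1 - 2 * c := max_lt (by omega) (by omega)
      omega
  -- all degrees are at least two
  have hd2 : ∀ i, 2 ≤ d i := by
    refine two_le' d hd1 (hP s h) (by rw [hP_coeff, if_pos (Nat.zero_le _), h0]; rfl) ?_ hprod
    have h1 : LinearIndependent ℂ (fun i : Fin (N + 1) => HFbAux.fn I (MvPolynomial.X i : Sx N)) := by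
      rw [Fintype.linearIndependent_iff]
      intro b hb i
      have h2 : (∑ j, b j • (MvPolynomial.X j : Sx N)) ∈ I := by
        refine (tNull N I hI hIh).2 ⟨x, hx, hx0⟩ _ 1 ?_ ?_
        · exact (MvPolynomial.homogeneousSubmodule (Fin (N + 1)) ℂ 1).sum_mem fun j _ =>
            (MvPolynomial.homogeneousSubmodule (Fin (N + 1)) ℂ 1).smul_mem _
              (MvPolynomial.isHomogeneous_X ℂ j)
        · intro z hz hz0
          have h3 := congrFun hb z
          rw [Finset.sum_apply] at h3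
          rw [map_sum]
          refine Eq.trans (Finset.sum_congr rfl fun j _ => ?_) h3
          rw [Pi.smul_apply, HFbAux.fn_of _ hz hz0, MvPolynomial.smul_eval, smul_eq_mul]
      have h4 := hnd _ h2 ((MvPolynomial.homogeneousSubmodule (Fin (N + 1)) ℂ 1).sum_mem fun j _ =>
            (MvPolynomial.homogeneousSubmodule (Fin (N + 1)) ℂ 1).smul_mem _
              (MvPolynomial.isHomogeneous_X ℂ j))
      have h5 := congrArg (MvPolynomial.eval (Pi.single i (1 : ℂ))) h4
      rw [map_sum, map_zero, Finset.sum_eq_single i] at h5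
      · rwa [MvPolynomial.smul_eval, MvPolynomial.eval_X, Pi.single_eq_same, mul_one] at h5
      · intro j _ hj
        rw [MvPolynomial.smul_eval, MvPolynomial.eval_X, Pi.single_eq_of_ne hj, mul_zero]
      · intro h
        exact absurd (Finset.mem_univ i) h
    have h2 := hReg 1 (N + 1) _ (fun i => HFbAux.fn_reg I (MvPolynomial.isHomogeneous_X ℂ i)) h1
    have h3 : hsum n s h 1 = (n + 1) + (if 1 ≤ s then h 1 else 0) := by
      unfold hsum
      rcases Nat.eq_zero_or_pos s with hs | hs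
      · subst hs
        simp [h0]
      · obtain ⟨s', rfl⟩ : ∃ s', s = s' + 1 := ⟨s - 1, by omega⟩
        rw [Finset.sum_range_succ', Finset.sum_range_succ', if_pos (Nat.le_add_left 1 s')]
        rw [Finset.sum_eq_zero (fun i _ => by rw [if_neg (by omega), mul_zero])]
        simp [h0]
        ring
    rw [h3] at h2
    rw [hP_coeff]
    split_ifs with h4
    · rw [if_pos h4] at h2
      have : c ≤ h 1 := by omega
      exact_mod_cast this
    · rw [if_neg h4] at h2
      omega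
  -- conclusion
  have hl : ∀ x v : Vx N, IsLine I x v → H.GLine I x v := by
    intro x v hxv
    refine ⟨hxv, fun x' v' hl' => ?_⟩
    filter_upwards [hdeg x v hxv, hdeg x' v' hl'] with m h1 h2
    omega
  obtain ⟨G, hG1, hG2⟩ := H.mSDH N c d I
    { pos := hc
      two_le := hd2
      large := by rw [hda]; omega
      prime := hI
      hom := hIh
      nd := hnd
      smooth := hS
      numW := hErr N c I d hI hIh hS hc (by omega) q (by rw [hq0]; exact hQP)
        (by rw [hq0]; exact ne_of_gt hq1') hqj hdiv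
      numL := fun x v hxv => by
        filter_upwards [hdeg x v hxv.1] with m h1
        rw [hda]
        omega
      clos := fun x v0 P' _ _ _ _ _ hpl' z hz hli => hl x z ⟨hli, fun s t => hpl' z hz s t⟩
      reg := fun k r f hf hli => by
        have h1 := hReg k r f hf hli
        have h2 := hHci N c _ (hP s h) d (QP_hsum hN s h) hprod k
        rw [← h2]
        exact_mod_cast h1
      cov := fun z hz hz0 => by
        obtain ⟨w, hw1, hw2⟩ := hcov z hz hz0
        exact ⟨w, hl z w ⟨hw1, hw2⟩⟩ }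
  exact ⟨d, G, fun i => ⟨hd2 i, hG1 i⟩, hG2⟩

end Pool.Agent.Lib.MP_776403_ag.SD
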