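import Pool.Agent.Lib.MP_776403_ag.SD.M.Fin
import Pool.Agent.Lib.MP_776403_ag.SD.H.Defs
import Pool.Agent.Lib.MP_776403_ag.SD.K.SpecS
import Pool.Agent.Lib.MP_776403_ag.SD.G.Spec2

/-!
# THEOREM H: statements for the final assembly
-/

set_option autoImplicit false

open MvPolynomial

noncomputable section

namespace Pool.Agent.Lib.MP_776403_ag.SD

/-- (ZH) From the integrality of the Chern roots to complete intersections (ACM case). -/
def S_ZH : Prop :=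
  ∀ (N n s c : ℕ) (I : Ideal (Sx N)) (l : Fin (n + 1) → Sx N) (d : Fin c → ℕ)
    (q : ℕ → Polynomial ℤ), N = n + c → 1 ≤ c → I.IsPrime → IsHom I →
    (∀ F ∈ I, F.IsHomogeneous 1 → F = 0) → Smooth I c → ACM I n s l →
    c * (s + 2) + 1 ≤ N → (∀ i, 2 ≤ d i) → 2 * ∑ i, d i + c ≤ N →
    QP N c (fun k => Module.finrank ℂ (gr I k)) (q 0) → (q 0).eval 1 ≠ 0 →
    (∀ j, j ≤ c → ∃ p, QP N c (hV I (VL I j)) p ∧ q j = Polynomial.X ^ j * p) →
    (1 - Polynomial.X) ^ c * q 0 = ∏ i, (1 - Polynomial.X ^ (d i)) →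
    (∀ j, (1 - Polynomial.X : Polynomial ℤ) ^ (N + 1 - 2 * c) ∣ q j - SDV.esd d j * q 0) →
    ∃ G : Fin c → Sx N, (∀ i, (G i).IsHomogeneous (d i)) ∧ I = Ideal.span (Set.range G)

/-- THEOREM H: smooth arithmetically Cohen-Macaulay varieties of codimension `c` with an
`h`-polynomial of degree `≤ s` in `ℙ^N`, `N` large with respect to `c` and `s`. -/
def S_H : Prop :=
  ∀ (N n s c : ℕ) (I : Ideal (Sx N)) (l : Fin (n + 1) → Sx N), N = n + c → 1 ≤ c →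
    I.IsPrime → IsHom I → (∀ F ∈ I, F.IsHomogeneous 1 → F = 0) → Smooth I c → ACM I n s l →
    c * (s + 2) + 1 ≤ N →
    (2 ≤ c ∧ 3 * c + 2 * s + 1 ≤ N ∧ 3 * c + s + 2 ^ c ≤ N + 6) ∨
      2 * c ^ 2 + 130 * c + 128 * s ≤ N + 1 →
    ∃ (d : Fin c → ℕ) (G : Fin c → Sx N), (∀ i, 2 ≤ d i ∧ (G i).IsHomogeneous (d i)) ∧
      I = Ideal.span (Set.range G)

end Pool.Agent.Lib.MP_776403_ag.SD
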